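import Pool.Agent.Lib_helper91.CMC2.Indep

open scoped Manifold ContDiff Topology
open Module

namespace Pool.Agent.Lib_helper91.CMC2

section
variable {n : ℕ} {M : Type*} [TopologicalSpace M] [ChartedSpace (E n) M]
  [IsManifold 𝓘(ℝ, E n) ∞ M] [ConnectedSpace M]

lemma n_ne_zero {m : ℕ} {x : M → E m} {c : E m} {x1 x2 : M → E m} {l1 l2 : ℝ}
    (h : IsCMCNonNullTwoType (n := n) x c x1 x2 l1 l2) : n ≠ 0 := by
  rintro rfl
  obtain ⟨p, q, hpq⟩ := h.nonconst1
  refine hpq (const_of_pd_zero (n := 0) (f := x1) ?_ ?_ p q)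
  · intro e he z hz
    exact diff_of (chart_smooth h.smooth1 he hz)
  · intro e _ z _ i
    exact i.elim0

/-- there is a point of a chart where `d x1 ≠ 0` -/
lemma exists_pd_ne {m : ℕ} {x : M → E m} {c : E m} {x1 x2 : M → E m} {l1 l2 : ℝ}
    (h : IsCMCNonNullTwoType (n := n) x c x1 x2 l1 l2) :
    ∃ e ∈ atlas (E n) M, ∃ z ∈ e.target, ∃ i, pd i (x1 ∘ e.symm) z ≠ 0 := by
  by_contra hcon
  push Not at hcon
  obtain ⟨p, q, hpq⟩ := h.nonconst1
  refine hpq (const_of_pd_zero (n := n) (f := x1) ?_ ?_ p q)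
  · intro e he z hz
    exact diff_of (chart_smooth h.smooth1 he hz)
  · intro e he z hz i
    exact hcon e he z hz i

omit [IsManifold 𝓘(ℝ, E n) ∞ M] [ConnectedSpace M] in
lemma cmc_symm {m : ℕ} {x : M → E m} {c : E m} {x1 x2 : M → E m} {l1 l2 : ℝ}
    (h : IsCMCNonNullTwoType (n := n) x c x1 x2 l1 l2) :
    IsCMCNonNullTwoType (n := n) x c x2 x1 l2 l1 :=
  ⟨h.smooth, h.immersion, h.smooth2, h.smooth1, fun p => by rw [h.decomp p]; abel,
    h.nonconst2, h.nonconst1, h.eigen2, h.eigen1, h.ne.symm, h.ne2, h.ne1, h.cmc⟩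

/-- the span of `x1` has dimension at least two -/
lemma two_le_finrank {m : ℕ} {x : M → E m} {c : E m} {x1 x2 : M → E m} {l1 l2 : ℝ}
    (h : IsCMCNonNullTwoType (n := n) x c x1 x2 l1 l2) :
    2 ≤ finrank ℝ (Submodule.span ℝ (Set.range x1)) := by
  by_contra hcon
  push Not at hcon
  obtain ⟨N0, hN⟩ := exists_LD (n_ne_zero h) h
  obtain ⟨e, he, z, hz, i, hi⟩ := exists_pd_ne h
  set K := Submodule.span ℝ (Set.range x1) with hK
  have hm1 : ∀ p, x1 p ∈ K := fun p => Submodule.subset_span ⟨p, rfl⟩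
  have hL := hN e he
  have hv : pd i (x1 ∘ e.symm) z ∈ K :=
    pd_mem (Filter.Eventually.of_forall fun w => hm1 _) (diff_of (hL.s1 z hz)) i
  have hle : Submodule.span ℝ {pd i (x1 ∘ e.symm) z} ≤ K := by
    rw [Submodule.span_singleton_le_iff_mem]; exact hv
  have heq : Submodule.span ℝ {pd i (x1 ∘ e.symm) z} = K := by
    refine Submodule.eq_of_le_of_finrank_le hle ?_
    rw [finrank_span_singleton hi]; omega
  have hbot := hL.symm.submersion hz K (fun w _ => hm1 _) (by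
    intro u hu hui
    rw [← heq, Submodule.mem_span_singleton] at hu
    obtain ⟨t, rfl⟩ := hu
    have h1 := hui i
    rw [real_inner_smul_right, real_inner_self_eq_norm_sq] at h1
    rcases mul_eq_zero.1 h1 with h2 | h2
    · rw [h2, zero_smul]
    · exact absurd (norm_eq_zero.1 (pow_eq_zero_iff two_ne_zero |>.1 h2)) hi)
  rw [hbot, Submodule.mem_bot] at hv
  exact hi hv

/-- **Main theorem** (linearly independent case). -/
theorem spherical_of_disjoint {x : M → E (n + 2)} {c : E (n + 2)} {x1 x2 : M → E (n + 2)}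
    {l1 l2 : ℝ} (h : IsCMCNonNullTwoType (n := n) x c x1 x2 l1 l2)
    (hd : Disjoint (Submodule.span ℝ (Set.range x1)) (Submodule.span ℝ (Set.range x2))) :
    IsSpherical x := by
  have hn := n_ne_zero h
  obtain ⟨N0, hN⟩ := exists_LD hn h
  have h21 := two_le_finrank h
  have h22 := two_le_finrank (cmc_symm h)
  set E1 := Submodule.span ℝ (Set.range x1) with hE1
  set E2 := Submodule.span ℝ (Set.range x2) with hE2
  have hm1 : ∀ p, x1 p ∈ E1 := fun p => Submodule.subset_span ⟨p, rfl⟩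
  have hm2 : ∀ p, x2 p ∈ E2 := fun p => Submodule.subset_span ⟨p, rfl⟩
  set N1 : Submodule ℝ (E (n + 2)) := E1 ⊓ E2ᗮ with hN1
  set N2 : Submodule ℝ (E (n + 2)) := E2 ⊓ E1ᗮ with hN2
  -- dimension facts
  have A4 : finrank ℝ E1 + finrank ℝ E2 ≤ n + 2 := by
    have h1 := Submodule.finrank_sup_add_finrank_inf_eq E1 E2
    rw [disjoint_iff.1 hd, finrank_bot] at h1
    have h2 := Submodule.finrank_le (E1 ⊔ E2)
    rw [finrank_euclideanSpace, Fintype.card_fin] at h2
    omega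
  have A5 : finrank ℝ E1 + finrank ℝ N2 = finrank ℝ E2 + finrank ℝ N1 := rank_symm' E1 E2
  have A6 : finrank ℝ N1 ≤ finrank ℝ E1 := Submodule.finrank_mono inf_le_left
  have A7 : finrank ℝ N2 ≤ finrank ℝ E2 := Submodule.finrank_mono inf_le_left
  by_cases hr0 : finrank ℝ N1 = finrank ℝ E1
  · -- orthogonal case
    refine spherical_of_orth hn h ?_
    have : N1 = E1 := Submodule.eq_of_le_of_finrank_eq inf_le_left hr0
    rw [← hE1, ← hE2, ← this]
    exact inf_le_right
  exfalso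
  -- estimates at every point
  have est : ∀ e ∈ atlas (E n) M, ∀ z ∈ e.target,
      n + finrank ℝ N1 ≤ finrank ℝ (N1 ⊓ (Submodule.span ℝ {(x1 ∘ e.symm) z})ᗮ :
          Submodule ℝ (E (n + 2)))
        + finrank ℝ (N2 ⊓ (Submodule.span ℝ {(x2 ∘ e.symm) z})ᗮ : Submodule ℝ (E (n + 2)))
        + finrank ℝ E1 := by
    intro e he z hz
    have hL := hN e he
    have d1 : n + finrank ℝ N1 ≤ finrank ℝ (LD.rad (x1 ∘ e.symm) (x2 ∘ e.symm) z E1 E2)
        + finrank ℝ E1 :=
      hL.dims1 hz (E1 := E1) (E2 := E2) (fun w _ => hm1 _) (fun w _ => hm2 _)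
    have d2 : finrank ℝ (LD.rad (x1 ∘ e.symm) (x2 ∘ e.symm) z E1 E2)
        ≤ finrank ℝ (N1 ⊓ (Submodule.span ℝ {(x1 ∘ e.symm) z})ᗮ : Submodule ℝ (E (n + 2)))
          + finrank ℝ (N2 ⊓ (Submodule.span ℝ {(x2 ∘ e.symm) z})ᗮ :
            Submodule ℝ (E (n + 2))) :=
      hL.dims2 hz (E1 := E1) (E2 := E2) (fun w _ => hm1 _) (fun w _ => hm2 _)
    omega
  have up1 : ∀ v : E (n + 2), finrank ℝ (N1 ⊓ (Submodule.span ℝ {v})ᗮ :
      Submodule ℝ (E (n + 2))) ≤ finrank ℝ N1 := fun v => Submodule.finrank_mono inf_le_left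
  have up2 : ∀ v : E (n + 2), finrank ℝ (N2 ⊓ (Submodule.span ℝ {v})ᗮ :
      Submodule ℝ (E (n + 2))) ≤ finrank ℝ N2 := fun v => Submodule.finrank_mono inf_le_left
  -- chart around a point
  have chart : ∀ p : M, ∃ e ∈ atlas (E n) M, ∃ z ∈ e.target, e.symm z = p := fun p =>
    ⟨chartAt (E n) p, chart_mem_atlas _ p, chartAt (E n) p p,
      (chartAt (E n) p).map_source (mem_chart_source _ p),
      (chartAt (E n) p).left_inv (mem_chart_source _ p)⟩
  have full : ∀ (N : Submodule ℝ (E (n + 2))) (v : E (n + 2)),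
      finrank ℝ N ≤ finrank ℝ (N ⊓ (Submodule.span ℝ {v})ᗮ : Submodule ℝ (E (n + 2))) →
      ∀ a ∈ N, inner ℝ a v = (0 : ℝ) := by
    intro N v hv a ha
    have h1 : N ⊓ (Submodule.span ℝ {v})ᗮ = N :=
      Submodule.eq_of_le_of_finrank_le inf_le_left hv
    rw [← h1] at ha
    exact Submodule.mem_orthogonal_singleton_iff_inner_left.1 ha.2
  have nonorth1 : N1 ≠ ⊥ → ∃ a ∈ N1, ∃ p, inner ℝ a (x1 p) ≠ (0 : ℝ) := by
    intro hne
    obtain ⟨a, ha, ha0⟩ := Submodule.exists_mem_ne_zero_of_ne_bot hne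
    refine ⟨a, ha, ?_⟩
    by_contra hcon
    push Not at hcon
    have h1 : a ∈ E1ᗮ := by
      rw [Submodule.mem_orthogonal]
      intro u hu
      refine Submodule.span_induction (p := fun u _ => inner ℝ u a = (0 : ℝ)) ?_ ?_ ?_ ?_ hu
      · rintro _ ⟨p, rfl⟩
        rw [real_inner_comm]; exact hcon p
      · exact inner_zero_left _
      · intro u v _ _ hu hv; rw [inner_add_left, hu, hv, add_zero]
      · intro t u _ hu; rw [real_inner_smul_left, hu, mul_zero]
    have h2 : inner ℝ a a = (0 : ℝ) := (Submodule.mem_orthogonal E1 a).1 h1 a ha.1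
    exact ha0 (inner_self_eq_zero.1 h2)
  have nonorth2 : N2 ≠ ⊥ → ∃ a ∈ N2, ∃ p, inner ℝ a (x2 p) ≠ (0 : ℝ) := by
    intro hne
    obtain ⟨a, ha, ha0⟩ := Submodule.exists_mem_ne_zero_of_ne_bot hne
    refine ⟨a, ha, ?_⟩
    by_contra hcon
    push Not at hcon
    have h1 : a ∈ E2ᗮ := by
      rw [Submodule.mem_orthogonal]
      intro u hu
      refine Submodule.span_induction (p := fun u _ => inner ℝ u a = (0 : ℝ)) ?_ ?_ ?_ ?_ hu
      · rintro _ ⟨p, rfl⟩
        rw [real_inner_comm]; exact hcon p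
      · exact inner_zero_left _
      · intro u v _ _ hu hv; rw [inner_add_left, hu, hv, add_zero]
      · intro t u _ hu; rw [real_inner_smul_left, hu, mul_zero]
    have h2 : inner ℝ a a = (0 : ℝ) := (Submodule.mem_orthogonal E2 a).1 h1 a ha.1
    exact ha0 (inner_self_eq_zero.1 h2)
  by_cases hN1b : N1 = ⊥
  · by_cases hN2b : N2 = ⊥
    · -- both trivial: n = 2, both planar
      have f1 : finrank ℝ N1 = 0 := by rw [hN1b, finrank_bot]
      have f2 : finrank ℝ N2 = 0 := by rw [hN2b, finrank_bot]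
      obtain ⟨p, q, hpq⟩ := h.nonconst1
      obtain ⟨e, he, z, hz, _⟩ := chart p
      have e1 := est e he z hz
      have e2 := up1 ((x1 ∘ e.symm) z)
      have e3 := up2 ((x2 ∘ e.symm) z)
      have g1 : finrank ℝ E1 = 2 := by omega
      have g2 : finrank ℝ E2 = 2 := by omega
      have g3 : n = 2 := by omega
      have hN0 := (hN e he).planar2 g3 hz E1 E2 (fun w _ => hm1 _) (fun w _ => hm2 _) g1 g2
        hN1b hN2b
      -- then y ≡ 0, hence x1 ≡ 0
      have hzero : ∀ p, x1 p = 0 := by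
        intro p
        obtain ⟨e, he, z, hz, hp⟩ := chart p
        have h1 := (hN e he).normy hz
        rw [hN0, zero_pow two_ne_zero] at h1
        have h2 := inner_self_eq_zero.1 h1
        unfold LD.yv at h2
        simp only [Function.comp_apply, hp] at h2
        have h3 : l1 • x1 p ∈ E2 := by
          have : l1 • x1 p = -(l2 • x2 p) := eq_neg_of_add_eq_zero_left h2
          rw [this]
          exact E2.neg_mem (E2.smul_mem _ (hm2 p))
        have h4 : l1 • x1 p = 0 :=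
          (Submodule.disjoint_def.1 hd) _ (E1.smul_mem _ (hm1 p)) h3
        exact (smul_eq_zero.1 h4).resolve_left h.ne1
      exact hpq (by rw [hzero, hzero])
    · -- N1 = ⊥, N2 ≠ ⊥
      have f1 : finrank ℝ N1 = 0 := by rw [hN1b, finrank_bot]
      obtain ⟨a, ha, p, hap⟩ := nonorth2 hN2b
      obtain ⟨e, he, z, hz, hp⟩ := chart p
      have e1 := est e he z hz
      have e2 := up1 ((x1 ∘ e.symm) z)
      have e3 : finrank ℝ (N2 ⊓ (Submodule.span ℝ {(x2 ∘ e.symm) z})ᗮ :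
          Submodule ℝ (E (n + 2))) < finrank ℝ N2 := by
        by_contra hcon
        push Not at hcon
        refine hap ?_
        have := full N2 _ hcon a ha
        simpa [hp] using this
      omega
  · obtain ⟨a, ha, p, hap⟩ := nonorth1 hN1b
    obtain ⟨e, he, z, hz, hp⟩ := chart p
    have hL := hN e he
    have hlt : ∀ v : E (n + 2), inner ℝ a v ≠ (0 : ℝ) →
        finrank ℝ (N1 ⊓ (Submodule.span ℝ {v})ᗮ : Submodule ℝ (E (n + 2))) < finrank ℝ N1 := by
      intro v hv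
      by_contra hcon
      push Not at hcon
      exact hv (full N1 v hcon a ha)
    have hev : ∀ᶠ w in 𝓝 z, w ∈ e.target ∧ inner ℝ a ((x1 ∘ e.symm) w) ≠ (0 : ℝ) := by
      have hop : ∀ᶠ w in 𝓝 z, w ∈ e.target := hL.op.mem_nhds hz
      refine hop.and ?_
      have hc : ContinuousAt (fun w => (inner ℝ a ((x1 ∘ e.symm) w) : ℝ)) z :=
        continuousAt_const.inner (𝕜 := ℝ) (hL.s1 z hz).continuousAt
      refine hc.eventually_ne ?_
      simpa [hp] using hap
    -- `x2 ⊥ N2` near `z`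
    have hperp : ∀ᶠ w in 𝓝 z, ∀ b ∈ N2, inner ℝ b ((x2 ∘ e.symm) w) = (0 : ℝ) := by
      filter_upwards [hev] with w hw b hb
      refine full N2 _ ?_ b hb
      have e1 := est e he w hw.1
      have e2 := hlt _ hw.2
      have e3 := up2 ((x2 ∘ e.symm) w)
      omega
    have hp2 : ∀ i, ∀ b ∈ N2, inner ℝ b (pd i (x2 ∘ e.symm) z) = (0 : ℝ) := by
      intro i b hb
      have h1 : (fun w => pairL b ((x2 ∘ e.symm) w)) =ᶠ[𝓝 z] fun _ => (0 : ℝ) := by
        filter_upwards [hperp] with w hw using hw b hb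
      have h2 := pd_congr h1 i
      rw [pd_const, pd_clm (pairL b) (diff_of (hL.s2 z hz)), pairL_apply] at h2
      exact h2
    have d1 : n + finrank ℝ N1 ≤ finrank ℝ (LD.rad (x1 ∘ e.symm) (x2 ∘ e.symm) z E1 E2)
        + finrank ℝ E1 :=
      hL.dims1 hz (E1 := E1) (E2 := E2) (fun w _ => hm1 _) (fun w _ => hm2 _)
    have d3 : finrank ℝ (LD.rad (x1 ∘ e.symm) (x2 ∘ e.symm) z E1 E2)
        ≤ finrank ℝ (N1 ⊓ (Submodule.span ℝ {(x1 ∘ e.symm) z})ᗮ :
          Submodule ℝ (E (n + 2))) :=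
      hL.dims3 hz (E1 := E1) (E2 := E2) (fun w _ => hm1 _) (fun w _ => hm2 _) hp2
    have e2 := hlt _ (hev.self_of_nhds).2
    have e1 := est e he z hz
    have e3 := up2 ((x2 ∘ e.symm) z)
    by_cases hN2b : N2 = ⊥
    · have f2 : finrank ℝ N2 = 0 := by rw [hN2b, finrank_bot]
      omega
    · have f2 : finrank ℝ N2 ≠ 0 := by
        intro h0; exact hN2b (Submodule.finrank_eq_zero.1 h0)
      omega

end
end Pool.Agent.Lib_helper91.CMC2
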