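import Pool.Agent.Lib_helper91.CMC2.Defs

open scoped ContDiff Topology

namespace Pool.Agent.Lib_helper91.CMC2

lemma two_le_infty : (2 : WithTop ℕ∞) ≤ ∞ := by
  have : ((2 : ℕ∞) : WithTop ℕ∞) ≤ ((⊤ : ℕ∞) : WithTop ℕ∞) := by exact_mod_cast le_top
  exact this

section general
variable {n : ℕ} {V W : Type*} [NormedAddCommGroup V] [NormedSpace ℝ V]
  [NormedAddCommGroup W] [NormedSpace ℝ W]

lemma diff_of {F : E n → V} {z : E n} (h : ContDiffAt ℝ ∞ F z) : DifferentiableAt ℝ F z :=
  h.differentiableAt (by simp)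

lemma diff_eventually {F : E n → V} {z : E n} (h : ContDiffAt ℝ ∞ F z) :
    ∀ᶠ w in 𝓝 z, DifferentiableAt ℝ F w := by
  have h1 : ContDiffAt ℝ 1 F z := h.of_le (by exact_mod_cast le_top)
  filter_upwards [h1.eventually (by simp)] with w hw
  exact hw.differentiableAt (by simp)

lemma fderiv_smooth {F : E n → V} {z : E n} (h : ContDiffAt ℝ ∞ F z) :
    ContDiffAt ℝ ∞ (fderiv ℝ F) z := h.fderiv_right (m := ∞) (by simp)

lemma pd_smooth {F : E n → V} {z : E n} (h : ContDiffAt ℝ ∞ F z) (i : Fin n) :
    ContDiffAt ℝ ∞ (pd i F) z :=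
  (fderiv_smooth h).clm_apply contDiffAt_const

lemma pd_congr {F G : E n → V} {z : E n} (h : F =ᶠ[𝓝 z] G) (i : Fin n) :
    pd i F z = pd i G z := by
  unfold pd; rw [h.fderiv_eq]

lemma pd_congr' {F G : E n → V} {z : E n} (h : F =ᶠ[𝓝 z] G) (i : Fin n) :
    pd i F =ᶠ[𝓝 z] pd i G := by
  filter_upwards [h.eventuallyEq_nhds] with w hw
  exact pd_congr hw i

lemma pd_pd {F : E n → V} {z : E n} (h : ContDiffAt ℝ ∞ F z) (i j : Fin n) :
    pd i (pd j F) z = fderiv ℝ (fderiv ℝ F) z (EuclideanSpace.single i 1)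
      (EuclideanSpace.single j 1) := by
  unfold pd
  have h1 : DifferentiableAt ℝ (fderiv ℝ F) z := diff_of (fderiv_smooth h)
  rw [fderiv_clm_apply h1 (by fun_prop)]
  simp

lemma pd_comm {F : E n → V} {z : E n} (h : ContDiffAt ℝ ∞ F z) (i j : Fin n) :
    pd i (pd j F) z = pd j (pd i F) z := by
  rw [pd_pd h, pd_pd h]
  have hs : IsSymmSndFDerivAt ℝ F z := h.isSymmSndFDerivAt (by rw [minSmoothness_of_isRCLikeNormedField]; exact two_le_infty)
  exact hs _ _

lemma pd_add {F G : E n → V} {z : E n} (hF : DifferentiableAt ℝ F z)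
    (hG : DifferentiableAt ℝ G z) (i : Fin n) :
    pd i (fun w => F w + G w) z = pd i F z + pd i G z := by
  unfold pd; rw [fderiv_fun_add hF hG]; simp

lemma pd_const (c : V) (z : E n) (i : Fin n) : pd i (fun _ => c) z = 0 := by
  unfold pd; simp

lemma pd_smul {F : E n → V} {z : E n} (c : ℝ) (hF : DifferentiableAt ℝ F z) (i : Fin n) :
    pd i (fun w => c • F w) z = c • pd i F z := by
  unfold pd; rw [fderiv_fun_const_smul hF]; simp

lemma pd_clm (L : V →L[ℝ] W) {F : E n → V} {z : E n} (hF : DifferentiableAt ℝ F z)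
    (i : Fin n) : pd i (fun w => L (F w)) z = L (pd i F z) := by
  unfold pd
  have h := L.hasFDerivAt.comp z hF.hasFDerivAt
  have h2 := h.fderiv
  have h3 : (L ∘ F) = fun w => L (F w) := rfl
  rw [h3] at h2
  rw [h2]; rfl

end general

section innerP
variable {n : ℕ} {V : Type*} [NormedAddCommGroup V] [InnerProductSpace ℝ V]

lemma pd_inner {F G : E n → V} {z : E n} (hF : DifferentiableAt ℝ F z)
    (hG : DifferentiableAt ℝ G z) (i : Fin n) :
    pd i (fun w => inner ℝ (F w) (G w)) z
      = inner ℝ (F z) (pd i G z) + inner ℝ (pd i F z) (G z) := by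
  unfold pd
  rw [fderiv_inner_apply ℝ hF hG]

end innerP

section metric
variable {n m : ℕ} {X : E n → E m} {z : E n}

lemma fderiv_eq_sum {V : Type*} [NormedAddCommGroup V] [NormedSpace ℝ V] (F : E n → V)
    (z v : E n) : fderiv ℝ F z v = ∑ i, v i • pd i F z := by
  unfold pd
  conv_lhs => rw [← (EuclideanSpace.basisFun (Fin n) ℝ).sum_repr v]
  rw [map_sum]
  simp

lemma metric_symm (X : E n → E m) (z : E n) : (metric X z).IsSymm := by
  ext i j; simp [metric, Matrix.transpose, real_inner_comm]

lemma metric_quad (X : E n → E m) (z : E n) (v : E n) :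
    ∑ i, ∑ j, v i * metric X z i j * v j = ‖fderiv ℝ X z v‖ ^ 2 := by
  rw [fderiv_eq_sum, ← real_inner_self_eq_norm_sq, sum_inner]
  refine Finset.sum_congr rfl fun i _ => ?_
  rw [inner_sum]
  refine Finset.sum_congr rfl fun j _ => ?_
  rw [real_inner_smul_left, real_inner_smul_right]
  simp [metric]; ring

lemma metric_unit (h : Function.Injective (fderiv ℝ X z)) : IsUnit (metric X z).det := by
  rw [isUnit_iff_ne_zero]
  intro hdet
  obtain ⟨v, hv, hv0⟩ := Matrix.exists_mulVec_eq_zero_iff.2 hdet
  set v' : E n := WithLp.toLp 2 v with hv'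
  have hq := metric_quad X z v'
  have h0 : ∑ i, ∑ j, v' i * metric X z i j * v' j = 0 := by
    refine Finset.sum_eq_zero fun i _ => ?_
    have := congrFun hv0 i
    simp only [Matrix.mulVec, dotProduct, Pi.zero_apply] at this
    have h2 : ∑ j, v' i * metric X z i j * v' j = v i * ∑ j, metric X z i j * v j := by
      rw [Finset.mul_sum]; refine Finset.sum_congr rfl fun j _ => ?_
      simp [hv']; ring
    rw [h2, this, mul_zero]
  rw [h0] at hq
  have h3 : fderiv ℝ X z v' = 0 := by
    have : ‖fderiv ℝ X z v'‖ = 0 := by nlinarith [norm_nonneg (fderiv ℝ X z v')]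
    exact norm_eq_zero.1 this
  have h4 : v' = 0 := h (by rw [h3, map_zero])
  apply hv
  ext i
  have := congrArg (fun u : E n => u i) h4
  simpa [hv'] using this

lemma inv_mul_metric (h : Function.Injective (fderiv ℝ X z)) (i j : Fin n) :
    ∑ k, (metric X z)⁻¹ i k * metric X z k j = if i = j then 1 else 0 := by
  have := Matrix.nonsing_inv_mul (metric X z) (metric_unit h)
  have h2 := congrFun (congrFun this i) j
  rw [Matrix.mul_apply, Matrix.one_apply] at h2
  exact h2

lemma metric_mul_inv (h : Function.Injective (fderiv ℝ X z)) (i j : Fin n) :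
    ∑ k, metric X z i k * (metric X z)⁻¹ k j = if i = j then 1 else 0 := by
  have := Matrix.mul_nonsing_inv (metric X z) (metric_unit h)
  have h2 := congrFun (congrFun this i) j
  rw [Matrix.mul_apply, Matrix.one_apply] at h2
  exact h2

lemma inv_symm (X : E n → E m) (z : E n) (i j : Fin n) :
    (metric X z)⁻¹ i j = (metric X z)⁻¹ j i := by
  have h : ((metric X z)⁻¹).transpose = (metric X z)⁻¹ := by
    rw [Matrix.transpose_nonsing_inv, metric_symm]
  exact (congrFun (congrFun h j) i)

lemma pd_metric (hX : ContDiffAt ℝ ∞ X z) (i j l : Fin n) :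
    pd i (fun w => metric X w j l) z
      = inner ℝ (pd j X z) (pd i (pd l X) z) + inner ℝ (pd i (pd j X) z) (pd l X z) := by
  unfold metric
  exact pd_inner (diff_of (pd_smooth hX j)) (diff_of (pd_smooth hX l)) i

/-- Gauss' formula for the Christoffel symbols. -/
lemma christoffel_eq (hX : ContDiffAt ℝ ∞ X z) (i j k : Fin n) :
    christoffel X z i j k
      = ∑ l, (metric X z)⁻¹ k l * inner ℝ (pd i (pd j X) z) (pd l X z) := by
  unfold christoffel
  rw [Finset.mul_sum]
  refine Finset.sum_congr rfl fun l _ => ?_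
  rw [pd_metric hX, pd_metric hX, pd_metric hX]
  rw [pd_comm hX j i, pd_comm hX i l, pd_comm hX j l]
  rw [real_inner_comm (pd l (pd i X) z) (pd j X z)]
  ring

/-- the second fundamental form is orthogonal to the tangent space -/
lemma inner_sff (hX : ContDiffAt ℝ ∞ X z) (h : Function.Injective (fderiv ℝ X z))
    (i j l : Fin n) :
    inner ℝ (pd i (pd j X) z - ∑ k, christoffel X z i j k • pd k X z) (pd l X z) = 0 := by
  rw [inner_sub_left, sum_inner]
  have : ∑ k, inner ℝ (christoffel X z i j k • pd k X z) (pd l X z)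
      = inner ℝ (pd i (pd j X) z) (pd l X z) := by
    calc ∑ k, inner ℝ (christoffel X z i j k • pd k X z) (pd l X z)
        = ∑ k, ∑ r, inner ℝ (pd i (pd j X) z) (pd r X z)
            * ((metric X z)⁻¹ k r * metric X z k l) := by
          refine Finset.sum_congr rfl fun k _ => ?_
          rw [real_inner_smul_left, christoffel_eq hX, Finset.sum_mul]
          refine Finset.sum_congr rfl fun r _ => ?_
          simp only [metric]; ring
      _ = ∑ r, inner ℝ (pd i (pd j X) z) (pd r X z)
            * ∑ k, (metric X z)⁻¹ r k * metric X z k l := by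
          rw [Finset.sum_comm]
          refine Finset.sum_congr rfl fun r _ => ?_
          rw [Finset.mul_sum]
          refine Finset.sum_congr rfl fun k _ => ?_
          rw [inv_symm X z r k]
      _ = _ := by
          simp [inv_mul_metric h]
  rw [this, sub_self]

/-- the Laplacian of the position vector is normal -/
lemma inner_lap_self (hX : ContDiffAt ℝ ∞ X z) (h : Function.Injective (fderiv ℝ X z))
    (l : Fin n) : inner ℝ (lap X X z) (pd l X z) = 0 := by
  unfold lap
  rw [inner_neg_left, sum_inner, neg_eq_zero]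
  refine Finset.sum_eq_zero fun i _ => ?_
  rw [sum_inner]
  refine Finset.sum_eq_zero fun j _ => ?_
  rw [real_inner_smul_left, inner_sff hX h, mul_zero]

lemma lap_self_eq (hn : n ≠ 0) (X : E n → E m) (z : E n) :
    lap X X z = -(n : ℝ) • meanCurv X z := by
  unfold lap meanCurv
  rw [smul_smul]
  have : -(n : ℝ) * (1 / (n : ℝ)) = -1 := by
    have : (n : ℝ) ≠ 0 := by exact_mod_cast hn
    field_simp
  rw [this, neg_one_smul]

end metric

section laplacian
variable {n m : ℕ} {V W : Type*} [NormedAddCommGroup V] [NormedSpace ℝ V]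
  [NormedAddCommGroup W] [NormedSpace ℝ W] {X : E n → E m} {z : E n}

lemma lap_congr {F G : E n → V} (h : F =ᶠ[𝓝 z] G) : lap X F z = lap X G z := by
  unfold lap
  congr 1
  refine Finset.sum_congr rfl fun i _ => Finset.sum_congr rfl fun j _ => ?_
  rw [pd_congr (pd_congr' h j) i]
  congr 2
  refine Finset.sum_congr rfl fun k _ => ?_
  rw [pd_congr h]

lemma lap_clm (L : V →L[ℝ] W) {F : E n → V} (hF : ContDiffAt ℝ ∞ F z) :
    lap X (fun w => L (F w)) z = L (lap X F z) := by
  unfold lap
  rw [map_neg, map_sum]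
  congr 1
  refine Finset.sum_congr rfl fun i _ => ?_
  rw [map_sum]
  refine Finset.sum_congr rfl fun j _ => ?_
  rw [map_smul, map_sub, map_sum]
  have h1 : pd j (fun w => L (F w)) =ᶠ[𝓝 z] fun w => L (pd j F w) := by
    filter_upwards [diff_eventually hF] with w hw
    exact pd_clm L hw j
  rw [pd_congr h1, pd_clm L (diff_of (pd_smooth hF j))]
  congr 2
  refine Finset.sum_congr rfl fun k _ => ?_
  rw [pd_clm L (diff_of hF), map_smul]

lemma lap_add {F G : E n → V} (hF : ContDiffAt ℝ ∞ F z) (hG : ContDiffAt ℝ ∞ G z) :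
    lap X (fun w => F w + G w) z = lap X F z + lap X G z := by
  unfold lap
  rw [← neg_add, ← Finset.sum_add_distrib]
  congr 1
  refine Finset.sum_congr rfl fun i _ => ?_
  rw [← Finset.sum_add_distrib]
  refine Finset.sum_congr rfl fun j _ => ?_
  have h1 : pd j (fun w => F w + G w) =ᶠ[𝓝 z] fun w => pd j F w + pd j G w := by
    filter_upwards [diff_eventually hF, diff_eventually hG] with w hw hw'
    exact pd_add hw hw' j
  rw [pd_congr h1, pd_add (diff_of (pd_smooth hF j)) (diff_of (pd_smooth hG j)), ← smul_add]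
  congr 1
  have h2 : ∑ k, christoffel X z i j k • pd k (fun w => F w + G w) z
      = ∑ k, christoffel X z i j k • pd k F z + ∑ k, christoffel X z i j k • pd k G z := by
    rw [← Finset.sum_add_distrib]
    refine Finset.sum_congr rfl fun k _ => ?_
    rw [pd_add (diff_of hF) (diff_of hG), smul_add]
  rw [h2]; abel

lemma lap_const (c : V) : lap X (fun _ => c) z = 0 := by
  unfold lap
  have h1 : ∀ j, pd j (fun _ : E n => c) = fun _ => 0 := by
    intro j; funext w; exact pd_const c w j
  simp [h1, pd_const]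

lemma lap_smul (c : ℝ) {F : E n → V} (hF : ContDiffAt ℝ ∞ F z) :
    lap X (fun w => c • F w) z = c • lap X F z :=
  lap_clm (c • ContinuousLinearMap.id ℝ V) hF

end laplacian

end Pool.Agent.Lib_helper91.CMC2
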