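import Mathlib

/-!
Basic notions for immersed submanifolds of Euclidean space: the induced metric, its Laplacian,
the mean curvature vector, and submanifolds of non-null 2-type with constant mean curvature.
-/

open scoped Manifold ContDiff

namespace Pool.Agent.Lib_helper91.CMC2

/-- Euclidean `k`-space. -/
abbrev E (k : ℕ) := EuclideanSpace ℝ (Fin k)

/-- The `i`-th partial derivative of `F` at `z`. -/
noncomputable def pd {n : ℕ} {V : Type*} [NormedAddCommGroup V] [NormedSpace ℝ V]
    (i : Fin n) (F : E n → V) (z : E n) : V :=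
  fderiv ℝ F z (EuclideanSpace.single i (1 : ℝ))

/-- The matrix `g_ij` of the metric induced by `X` at `z`. -/
noncomputable def metric {n m : ℕ} (X : E n → E m) (z : E n) : Matrix (Fin n) (Fin n) ℝ :=
  fun i j => inner ℝ (pd i X z) (pd j X z)

/-- The Christoffel symbol `Γ^k_ij` of the metric induced by `X`, that is
`(1/2) ∑_l g^{kl} (∂_i g_jl + ∂_j g_il - ∂_l g_ij)`. -/
noncomputable def christoffel {n m : ℕ} (X : E n → E m) (z : E n) (i j k : Fin n) : ℝ :=
  (1 / 2) * ∑ l, (metric X z)⁻¹ k l *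
    (pd i (fun w => metric X w j l) z + pd j (fun w => metric X w i l) z
      - pd l (fun w => metric X w i j) z)

/-- The Laplacian `Δ F = - ∑_ij g^{ij} (∂_i ∂_j F - ∑_k Γ^k_ij ∂_k F)` of the metric induced by
`X`, acting componentwise on a vector valued function `F`. -/
noncomputable def lap {n m : ℕ} {V : Type*} [NormedAddCommGroup V] [NormedSpace ℝ V]
    (X : E n → E m) (F : E n → V) (z : E n) : V :=
  - ∑ i, ∑ j, (metric X z)⁻¹ i j • (pd i (pd j F) z - ∑ k, christoffel X z i j k • pd k F z)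

/-- The mean curvature vector `H = (1/n) ∑_ij g^{ij} h_ij` of `X`, where
`h_ij = ∂_i ∂_j X - ∑_k Γ^k_ij ∂_k X` is the second fundamental form. -/
noncomputable def meanCurv {n m : ℕ} (X : E n → E m) (z : E n) : E m :=
  (1 / (n : ℝ)) • ∑ i, ∑ j, (metric X z)⁻¹ i j •
    (pd i (pd j X) z - ∑ k, christoffel X z i j k • pd k X z)

/-- `Δ f = lam f` for the Laplacian of the metric induced by `x` (in every chart of the atlas). -/
def IsEigenmap {n m : ℕ} {M : Type*} [TopologicalSpace M] [ChartedSpace (E n) M]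
    (x f : M → E m) (lam : ℝ) : Prop :=
  ∀ e ∈ atlas (E n) M, ∀ z ∈ e.target,
    lap (x ∘ e.symm) (f ∘ e.symm) z = lam • f (e.symm z)

/-- The length of the mean curvature vector of `x` is constant. -/
def HasConstMeanCurv {n m : ℕ} {M : Type*} [TopologicalSpace M] [ChartedSpace (E n) M]
    (x : M → E m) : Prop :=
  ∃ a : ℝ, ∀ e ∈ atlas (E n) M, ∀ z ∈ e.target, ‖meanCurv (x ∘ e.symm) z‖ = a

/-- `M` (with its atlas modelled on `E n`) is a smooth `n`-dimensional manifold. -/
def IsSmoothManifold (n : ℕ) (M : Type*) [TopologicalSpace M] [ChartedSpace (E n) M] : Prop :=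
  IsManifold 𝓘(ℝ, E n) ∞ M

/-- `f` is a smooth map from the `n`-manifold `M` to `E^m`. -/
def IsSmoothMap (n : ℕ) {m : ℕ} {M : Type*} [TopologicalSpace M] [ChartedSpace (E n) M]
    (f : M → E m) : Prop :=
  ContMDiff 𝓘(ℝ, E n) 𝓘(ℝ, E m) ∞ f

/-- the differential of `f` (computed in any chart of the atlas) is injective at every point. -/
def IsImmersive (n : ℕ) {m : ℕ} {M : Type*} [TopologicalSpace M] [ChartedSpace (E n) M]
    (f : M → E m) : Prop :=
  ∀ e ∈ atlas (E n) M, ∀ z ∈ e.target, Function.Injective (fderiv ℝ (f ∘ e.symm) z)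

/-- `x = c + x1 + x2` is an immersion of the `n`-manifold `M` in `E^m` with constant mean
curvature and of non-null 2-type, with `Δ x1 = l1 x1`, `Δ x2 = l2 x2`. -/
structure IsCMCNonNullTwoType {n m : ℕ} {M : Type*} [TopologicalSpace M] [ChartedSpace (E n) M]
    (x : M → E m) (c : E m) (x1 x2 : M → E m) (l1 l2 : ℝ) : Prop where
  smooth : IsSmoothMap n x
  immersion : IsImmersive n x
  smooth1 : IsSmoothMap n x1
  smooth2 : IsSmoothMap n x2
  decomp : ∀ p, x p = c + x1 p + x2 p
  nonconst1 : ∃ p q, x1 p ≠ x1 q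
  nonconst2 : ∃ p q, x2 p ≠ x2 q
  eigen1 : IsEigenmap (n := n) x x1 l1
  eigen2 : IsEigenmap (n := n) x x2 l2
  ne : l1 ≠ l2
  ne1 : l1 ≠ 0
  ne2 : l2 ≠ 0
  cmc : HasConstMeanCurv (n := n) x

/-- The linear span of the image of `f`. -/
noncomputable def spanOf {m : ℕ} {M : Type*} (f : M → E m) : Submodule ℝ (E m) :=
  Submodule.span ℝ (Set.range f)

/-- The image of `x` lies in a round hypersphere. -/
def IsSpherical {m : ℕ} {M : Type*} (x : M → E m) : Prop :=
  ∃ (o : E m) (R : ℝ), 0 < R ∧ ∀ p, dist (x p) o = R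

end Pool.Agent.Lib_helper91.CMC2
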