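import Pool.Agent.Lib_helper91.CMC2.Planar2

open scoped Manifold ContDiff Topology
open Module

namespace Pool.Agent.Lib_helper91.CMC2

namespace LD
variable {n m : ℕ} {U : Set (E n)} {X X1 X2 : E n → E m} {c : E m} {l1 l2 N0 : ℝ}
  {z : E n}

/-- the radical of the tangent space -/
noncomputable def rad (X1 X2 : E n → E m) (z : E n) (E1 E2 : Submodule ℝ (E m)) :
    Submodule ℝ (E n) :=
  (E2ᗮ.comap (fderiv ℝ X1 z : E n →ₗ[ℝ] E m)) ⊓ (E1ᗮ.comap (fderiv ℝ X2 z : E n →ₗ[ℝ] E m))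

lemma mem1 (h : LD U X X1 X2 c l1 l2 N0) (hz : z ∈ U) {E1 : Submodule ℝ (E m)}
    (hE1 : ∀ w ∈ U, X1 w ∈ E1) (v : E n) : fderiv ℝ X1 z v ∈ E1 :=
  fderiv_mem (by filter_upwards [h.op.mem_nhds hz] with t ht using hE1 t ht)
    (diff_of (h.s1 z hz)) v

lemma mem2 (h : LD U X X1 X2 c l1 l2 N0) (hz : z ∈ U) {E2 : Submodule ℝ (E m)}
    (hE2 : ∀ w ∈ U, X2 w ∈ E2) (v : E n) : fderiv ℝ X2 z v ∈ E2 :=
  fderiv_mem (by filter_upwards [h.op.mem_nhds hz] with t ht using hE2 t ht)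
    (diff_of (h.s2 z hz)) v

lemma dims1 (h : LD U X X1 X2 c l1 l2 N0) (hz : z ∈ U) {E1 E2 : Submodule ℝ (E m)}
    (hE1 : ∀ w ∈ U, X1 w ∈ E1) (hE2 : ∀ w ∈ U, X2 w ∈ E2) :
    n + finrank ℝ (E1 ⊓ E2ᗮ : Submodule ℝ (E m))
      ≤ finrank ℝ (rad X1 X2 z E1 E2) + finrank ℝ E1 := by
  have := dim_est E1 E2 (fderiv ℝ X1 z : E n →ₗ[ℝ] E m) (fderiv ℝ X2 z : E n →ₗ[ℝ] E m)
    (h.mem1 hz hE1) (h.mem2 hz hE2) (h.iso_vec hz)
  rw [finrank_euclideanSpace, Fintype.card_fin] at this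
  exact this

lemma rad_mem1 (h : LD U X X1 X2 c l1 l2 N0) (hz : z ∈ U) {E1 E2 : Submodule ℝ (E m)}
    (hE1 : ∀ w ∈ U, X1 w ∈ E1) (hE2 : ∀ w ∈ U, X2 w ∈ E2) {u : E n}
    (hu : u ∈ rad X1 X2 z E1 E2) :
    fderiv ℝ X1 z u ∈ ((E1 ⊓ E2ᗮ) ⊓ (Submodule.span ℝ {X1 z})ᗮ : Submodule ℝ (E m)) := by
  have h1 : fderiv ℝ X1 z u ∈ E2ᗮ := hu.1
  refine ⟨⟨h.mem1 hz hE1 u, h1⟩, ?_⟩
  rw [SetLike.mem_coe, Submodule.mem_orthogonal_singleton_iff_inner_right]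
  have h2 := h.inner_y_D1 hz u
  unfold yv at h2
  have h3 : inner ℝ (X2 z) (fderiv ℝ X1 z u) = (0 : ℝ) :=
    (Submodule.mem_orthogonal E2 _).1 h1 _ (hE2 z hz)
  rw [inner_add_left, real_inner_smul_left, real_inner_smul_left, h3, mul_zero, add_zero] at h2
  rcases mul_eq_zero.1 h2 with h4 | h4
  · exact absurd h4 h.ne1
  · exact h4

lemma rad_mem2 (h : LD U X X1 X2 c l1 l2 N0) (hz : z ∈ U) {E1 E2 : Submodule ℝ (E m)}
    (hE1 : ∀ w ∈ U, X1 w ∈ E1) (hE2 : ∀ w ∈ U, X2 w ∈ E2) {u : E n}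
    (hu : u ∈ rad X1 X2 z E1 E2) :
    fderiv ℝ X2 z u ∈ ((E2 ⊓ E1ᗮ) ⊓ (Submodule.span ℝ {X2 z})ᗮ : Submodule ℝ (E m)) :=
  h.symm.rad_mem1 hz hE2 hE1 (u := u) ⟨hu.2, hu.1⟩

lemma dims2 (h : LD U X X1 X2 c l1 l2 N0) (hz : z ∈ U) {E1 E2 : Submodule ℝ (E m)}
    (hE1 : ∀ w ∈ U, X1 w ∈ E1) (hE2 : ∀ w ∈ U, X2 w ∈ E2) :
    finrank ℝ (rad X1 X2 z E1 E2)
      ≤ finrank ℝ ((E1 ⊓ E2ᗮ) ⊓ (Submodule.span ℝ {X1 z})ᗮ : Submodule ℝ (E m))
        + finrank ℝ ((E2 ⊓ E1ᗮ) ⊓ (Submodule.span ℝ {X2 z})ᗮ : Submodule ℝ (E m)) := by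
  refine dim_up _ _ (fderiv ℝ X1 z : E n →ₗ[ℝ] E m) (fderiv ℝ X2 z : E n →ₗ[ℝ] E m) _
    (fun u hu => h.rad_mem1 hz hE1 hE2 hu) (fun u hu => h.rad_mem2 hz hE1 hE2 hu) ?_
  intro u _ h1 h2
  have h1' : fderiv ℝ X1 z u = 0 := h1
  have h2' : fderiv ℝ X2 z u = 0 := h2
  have : fderiv ℝ X z u = 0 := by rw [h.fderivX hz, h1', h2', add_zero]
  exact h.imm z hz (by rw [this, map_zero])

lemma dims3 (h : LD U X X1 X2 c l1 l2 N0) (hz : z ∈ U) {E1 E2 : Submodule ℝ (E m)}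
    (hE1 : ∀ w ∈ U, X1 w ∈ E1) (hE2 : ∀ w ∈ U, X2 w ∈ E2)
    (hp : ∀ i, ∀ b ∈ (E2 ⊓ E1ᗮ : Submodule ℝ (E m)), inner ℝ b (pd i X2 z) = 0) :
    finrank ℝ (rad X1 X2 z E1 E2)
      ≤ finrank ℝ ((E1 ⊓ E2ᗮ) ⊓ (Submodule.span ℝ {X1 z})ᗮ : Submodule ℝ (E m)) := by
  have key := dim_up ((E1 ⊓ E2ᗮ) ⊓ (Submodule.span ℝ {X1 z})ᗮ : Submodule ℝ (E m)) ⊥
    (fderiv ℝ X1 z : E n →ₗ[ℝ] E m) (fderiv ℝ X2 z : E n →ₗ[ℝ] E m) (rad X1 X2 z E1 E2)
    (fun u hu => h.rad_mem1 hz hE1 hE2 hu) ?_ ?_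
  · rw [finrank_bot] at key; simpa using key
  · intro u hu
    have h1 := (h.rad_mem2 hz hE1 hE2 hu).1
    have h2 : inner ℝ (fderiv ℝ X2 z u) (fderiv ℝ X2 z u) = (0 : ℝ) := by
      nth_rewrite 2 [fderiv_eq_sum]
      rw [inner_sum]
      exact Finset.sum_eq_zero fun i _ => by
        rw [real_inner_smul_right, hp i _ h1, mul_zero]
    exact inner_self_eq_zero.1 h2
  · intro u _ h1 h2
    have h1' : fderiv ℝ X1 z u = 0 := h1
    have h2' : fderiv ℝ X2 z u = 0 := h2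
    have : fderiv ℝ X z u = 0 := by rw [h.fderivX hz, h1', h2', add_zero]
    exact h.imm z hz (by rw [this, map_zero])

end LD

section global
variable {n : ℕ} {M : Type*} [TopologicalSpace M] [ChartedSpace (E n) M]
  [IsManifold 𝓘(ℝ, E n) ∞ M]

omit [IsManifold 𝓘(ℝ, E n) ∞ M] in
lemma const_of_pd_zero [ConnectedSpace M] {m : ℕ} {f : M → E m}
    (hd : ∀ e ∈ atlas (E n) M, ∀ z ∈ e.target, DifferentiableAt ℝ (f ∘ e.symm) z)
    (h0 : ∀ e ∈ atlas (E n) M, ∀ z ∈ e.target, ∀ i, pd i (f ∘ e.symm) z = 0) (p q : M) :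
    f p = f q := by
  have key : ∀ b : E m, inner ℝ b (f p) = (inner ℝ b (f q) : ℝ) := by
    intro b
    refine const_of_fderiv_zero (n := n) (f := fun p => pairL b (f p)) ?_ ?_ p q
    · intro e he z hz
      exact (pairL b).differentiableAt.comp z (hd e he z hz)
    · intro e he z hz
      ext v
      rw [fderiv_eq_sum]
      refine Finset.sum_eq_zero fun i _ => ?_
      have h1 : pd i ((fun p => pairL b (f p)) ∘ e.symm) z = 0 := by
        have := pd_clm (pairL b) (hd e he z hz) i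
        rw [h0 e he z hz i, map_zero] at this
        exact this
      rw [h1, smul_zero]
  have h1 : inner ℝ (f p - f q) (f p - f q) = (0 : ℝ) := by
    rw [inner_sub_right, key, sub_self]
  exact sub_eq_zero.1 (inner_self_eq_zero.1 h1)

/-- Orthogonal case: `⟨x1, x2⟩ ≡ 0` in the strong sense implies spherical. -/
lemma spherical_of_orth [ConnectedSpace M] {m : ℕ} (hn : n ≠ 0) {x : M → E m} {c : E m}
    {x1 x2 : M → E m} {l1 l2 : ℝ}
    (h : IsCMCNonNullTwoType (n := n) x c x1 x2 l1 l2)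
    (ho : Submodule.span ℝ (Set.range x1) ≤ (Submodule.span ℝ (Set.range x2))ᗮ) :
    IsSpherical x := by
  obtain ⟨N0, hN⟩ := exists_LD hn h
  set E1 := Submodule.span ℝ (Set.range x1) with hE1
  set E2 := Submodule.span ℝ (Set.range x2) with hE2
  have hort : ∀ a ∈ E1, ∀ b ∈ E2, inner ℝ a b = (0 : ℝ) := fun a ha b hb =>
    (Submodule.mem_orthogonal' E2 a).1 (ho ha) b hb
  have hm1 : ∀ p, x1 p ∈ E1 := fun p => Submodule.subset_span ⟨p, rfl⟩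
  have hm2 : ∀ p, x2 p ∈ E2 := fun p => Submodule.subset_span ⟨p, rfl⟩
  have hconst : ∀ p q, inner ℝ (x1 p + x2 p) (x1 p + x2 p)
      = (inner ℝ (x1 q + x2 q) (x1 q + x2 q) : ℝ) := by
    intro p q
    refine const_of_fderiv_zero (n := n)
      (f := fun p => (inner ℝ (x1 p + x2 p) (x1 p + x2 p) : ℝ)) ?_ ?_ p q
    · intro e he z hz
      have hL := hN e he
      have h1 := diff_of (hL.s1 z hz)
      have h2 := diff_of (hL.s2 z hz)
      exact (h1.add h2).inner ℝ (h1.add h2)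
    · intro e he z hz
      have hL := hN e he
      have h1 := diff_of (hL.s1 z hz)
      have h2 := diff_of (hL.s2 z hz)
      ext v
      rw [fderiv_eq_sum]
      refine Finset.sum_eq_zero fun i _ => ?_
      have e1 : pd i ((fun p => (inner ℝ (x1 p + x2 p) (x1 p + x2 p) : ℝ)) ∘ e.symm) z
          = inner ℝ ((x1 ∘ e.symm) z + (x2 ∘ e.symm) z)
              (pd i (x1 ∘ e.symm) z + pd i (x2 ∘ e.symm) z)
            + inner ℝ (pd i (x1 ∘ e.symm) z + pd i (x2 ∘ e.symm) z)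
              ((x1 ∘ e.symm) z + (x2 ∘ e.symm) z) := by
        have := pd_inner (F := fun w => (x1 ∘ e.symm) w + (x2 ∘ e.symm) w)
          (G := fun w => (x1 ∘ e.symm) w + (x2 ∘ e.symm) w) (h1.add h2) (h1.add h2) i
        rw [pd_add h1 h2] at this
        exact this
      have m1 : pd i (x1 ∘ e.symm) z ∈ E1 := by
        refine pd_mem ?_ h1 i
        exact Filter.Eventually.of_forall fun w => hm1 _
      have m2 : pd i (x2 ∘ e.symm) z ∈ E2 := by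
        refine pd_mem ?_ h2 i
        exact Filter.Eventually.of_forall fun w => hm2 _
      have n1 : (x1 ∘ e.symm) z ∈ E1 := hm1 _
      have n2 : (x2 ∘ e.symm) z ∈ E2 := hm2 _
      have k1 := hL.inner_y_1 hz i
      have k2 := hL.inner_y_2 hz i
      unfold LD.yv at k1 k2
      rw [inner_add_left, real_inner_smul_left, real_inner_smul_left,
        real_inner_comm (pd i (x1 ∘ e.symm) z) ((x2 ∘ e.symm) z),
        hort _ m1 _ n2, mul_zero, add_zero] at k1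
      rw [inner_add_left, real_inner_smul_left, real_inner_smul_left,
        hort _ n1 _ m2, mul_zero, zero_add] at k2
      have k1' : inner ℝ ((x1 ∘ e.symm) z) (pd i (x1 ∘ e.symm) z) = (0 : ℝ) :=
        (mul_eq_zero.1 k1).resolve_left h.ne1
      have k2' : inner ℝ ((x2 ∘ e.symm) z) (pd i (x2 ∘ e.symm) z) = (0 : ℝ) :=
        (mul_eq_zero.1 k2).resolve_left h.ne2
      have k3 : inner ℝ ((x1 ∘ e.symm) z) (pd i (x2 ∘ e.symm) z) = (0 : ℝ) :=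
        hort _ n1 _ m2
      have k4 : inner ℝ ((x2 ∘ e.symm) z) (pd i (x1 ∘ e.symm) z) = (0 : ℝ) := by
        rw [real_inner_comm]; exact hort _ m1 _ n2
      rw [e1, real_inner_comm ((x1 ∘ e.symm) z + (x2 ∘ e.symm) z)
        (pd i (x1 ∘ e.symm) z + pd i (x2 ∘ e.symm) z)]
      simp only [inner_add_left, inner_add_right, k1', k2', k3, k4]
      simp
  obtain ⟨p0, q0, hpq⟩ := h.nonconst1
  have hdist : ∀ p, dist (x p) c = ‖x1 p0 + x2 p0‖ := by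
    intro p
    have h1 : x p - c = x1 p + x2 p := by rw [h.decomp p]; abel
    rw [dist_eq_norm, h1]
    have h2 := hconst p p0
    rw [real_inner_self_eq_norm_sq, real_inner_self_eq_norm_sq] at h2
    exact (sq_eq_sq₀ (norm_nonneg _) (norm_nonneg _)).1 h2
  refine ⟨c, ‖x1 p0 + x2 p0‖, ?_, hdist⟩
  rw [norm_pos_iff]
  intro h0
  have hz : ∀ p, x1 p = 0 := by
    intro p
    have h1 : x1 p + x2 p = 0 := by
      have h2 := hconst p p0
      rw [h0, inner_zero_left] at h2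
      exact inner_self_eq_zero.1 h2
    have h3 : inner ℝ (x1 p) (x1 p) = (0 : ℝ) := by
      have h4 : inner ℝ (x1 p) (x1 p + x2 p) = (0 : ℝ) := by rw [h1, inner_zero_right]
      rw [inner_add_right, hort _ (hm1 p) _ (hm2 p), add_zero] at h4
      exact h4
    exact inner_self_eq_zero.1 h3
  exact hpq (by rw [hz, hz])

end global
end Pool.Agent.Lib_helper91.CMC2
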