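import Mathlib

open Module

namespace Pool.Agent.Lib_helper91.CMC2

/-- rank-nullity for the restriction of a map to a submodule -/
lemma finrank_restrict {A W : Type*} [AddCommGroup A] [Module ℝ A] [FiniteDimensional ℝ A]
    [AddCommGroup W] [Module ℝ W] (S : Submodule ℝ A)
    (f : A →ₗ[ℝ] W) :
    finrank ℝ (S.map f) + finrank ℝ (S ⊓ LinearMap.ker f : Submodule ℝ A) = finrank ℝ S := by
  have h := (f.domRestrict S).finrank_range_add_finrank_ker
  have h1 : LinearMap.range (f.domRestrict S) = S.map f := LinearMap.range_domRestrict S f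
  rw [h1] at h
  have h2 : finrank ℝ (LinearMap.ker (f.domRestrict S))
      = finrank ℝ (S ⊓ LinearMap.ker f : Submodule ℝ A) := by
    have h3 : LinearMap.ker (f.domRestrict S) = (LinearMap.ker f).comap S.subtype := by
      ext v; simp [LinearMap.domRestrict_apply]
    rw [h3, ← Submodule.map_comap_subtype, Submodule.finrank_map_subtype_eq]
  omega

section
variable {A V : Type*} [AddCommGroup A] [Module ℝ A] [FiniteDimensional ℝ A]
  [NormedAddCommGroup V] [InnerProductSpace ℝ V] [FiniteDimensional ℝ V]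

/-- orthogonal projection as a linear map -/
noncomputable def pr (K : Submodule ℝ V) : V →ₗ[ℝ] V := (K.starProjection : V →L[ℝ] V)

lemma pr_mem (K : Submodule ℝ V) (v : V) : pr K v ∈ K := by
  unfold pr; simp

lemma inner_pr (K : Submodule ℝ V) (v w : V) (hw : w ∈ K) :
    inner ℝ (pr K v) w = inner ℝ v w := by
  have h := K.starProjection_inner_eq_zero v w hw
  rw [inner_sub_left] at h
  have h2 : inner ℝ (pr K v) w = inner ℝ (K.starProjection v) w := rfl
  rw [h2]; linarith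

lemma pr_eq_zero (K : Submodule ℝ V) (v : V) : pr K v = 0 ↔ v ∈ Kᗮ := by
  constructor
  · intro h
    rw [Submodule.mem_orthogonal']
    intro w hw
    rw [← inner_pr K v w hw, h, inner_zero_left]
  · intro h
    have h1 : inner ℝ (pr K v) (pr K v) = (0 : ℝ) := by
      rw [inner_pr K v _ (pr_mem K v)]
      exact (Submodule.mem_orthogonal' K v).1 h _ (pr_mem K v)
    exact inner_self_eq_zero.1 h1

lemma ker_pr (K : Submodule ℝ V) : LinearMap.ker (pr K) = Kᗮ := by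
  ext v; rw [LinearMap.mem_ker, pr_eq_zero]

/-- the rank of the pairing `E1 × E2 → ℝ` is symmetric -/
lemma rank_symm (E1 E2 : Submodule ℝ V) :
    finrank ℝ E1 + finrank ℝ (E2 ⊓ E1ᗮ : Submodule ℝ V)
      ≤ finrank ℝ E2 + finrank ℝ (E1 ⊓ E2ᗮ : Submodule ℝ V) := by
  have h := finrank_restrict E1 (pr E2)
  rw [ker_pr] at h
  -- the image is orthogonal to `E2 ⊓ E1ᗮ` inside `E2`
  have h1 : Disjoint (E1.map (pr E2)) (E2 ⊓ E1ᗮ) := by
    rw [Submodule.disjoint_def]
    rintro v hv ⟨_, hv1⟩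
    obtain ⟨a, ha, rfl⟩ := hv
    have h2 : inner ℝ (pr E2 a) (pr E2 a) = (0 : ℝ) := by
      rw [inner_pr E2 a _ (pr_mem E2 a)]
      exact (Submodule.mem_orthogonal E1 _).1 hv1 a ha
    exact inner_self_eq_zero.1 h2
  have h3 : E1.map (pr E2) ⊔ (E2 ⊓ E1ᗮ) ≤ E2 := by
    refine sup_le ?_ inf_le_left
    rintro v ⟨a, _, rfl⟩
    exact pr_mem E2 a
  have h4 := Submodule.finrank_sup_add_finrank_inf_eq (E1.map (pr E2)) (E2 ⊓ E1ᗮ)
  rw [disjoint_iff.1 h1, finrank_bot] at h4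
  have h5 := Submodule.finrank_mono h3
  omega

lemma rank_symm' (E1 E2 : Submodule ℝ V) :
    finrank ℝ E1 + finrank ℝ (E2 ⊓ E1ᗮ : Submodule ℝ V)
      = finrank ℝ E2 + finrank ℝ (E1 ⊓ E2ᗮ : Submodule ℝ V) :=
  le_antisymm (rank_symm E1 E2) (rank_symm E2 E1)

/-- The basic dimension estimate coming from isotropy. -/
lemma dim_est (E1 E2 : Submodule ℝ V) (D1 D2 : A →ₗ[ℝ] V) (h1 : ∀ u, D1 u ∈ E1)
    (h2 : ∀ u, D2 u ∈ E2) (iso : ∀ u v, inner ℝ (D1 u) (D2 v) = inner ℝ (D1 v) (D2 u)) :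
    finrank ℝ A + finrank ℝ (E1 ⊓ E2ᗮ : Submodule ℝ V)
      ≤ finrank ℝ ((E2ᗮ.comap D1) ⊓ (E1ᗮ.comap D2) : Submodule ℝ A) + finrank ℝ E1 := by
  set K1 : Submodule ℝ A := E2ᗮ.comap D1 with hK1
  set N1 : Submodule ℝ V := E1 ⊓ E2ᗮ with hN1
  -- rank of D1 modulo N1
  have a1 := finrank_restrict (⊤ : Submodule ℝ A) ((pr E2).comp D1)
  have hk1 : LinearMap.ker ((pr E2).comp D1) = K1 := by
    rw [LinearMap.ker_comp, ker_pr]
  rw [hk1, top_inf_eq, finrank_top] at a1
  -- dimension of N1 ⊔ range D1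
  have a2 := finrank_restrict (N1 ⊔ LinearMap.range D1) (pr E2)
  have b1 : (N1 ⊔ LinearMap.range D1).map (pr E2) = (⊤ : Submodule ℝ A).map ((pr E2).comp D1) := by
    rw [Submodule.map_sup, Submodule.map_comp, Submodule.map_top]
    have : N1.map (pr E2) = ⊥ := by
      rw [eq_bot_iff]
      rintro v ⟨a, ha, rfl⟩
      rw [Submodule.mem_bot, pr_eq_zero]
      exact ha.2
    rw [this, bot_sup_eq]
  have b2 : (N1 ⊔ LinearMap.range D1) ⊓ LinearMap.ker (pr E2) = N1 := by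
    rw [ker_pr]
    apply le_antisymm
    · have : N1 ⊔ LinearMap.range D1 ≤ E1 := by
        refine sup_le inf_le_left ?_
        rintro v ⟨u, rfl⟩
        exact h1 u
      exact inf_le_inf_right _ this
    · exact le_inf le_sup_left inf_le_right
  rw [b1, b2] at a2
  -- the map K1 → E1
  have a3 := finrank_restrict K1 ((pr E1).comp D2)
  have b3 : LinearMap.ker ((pr E1).comp D2) = E1ᗮ.comap D2 := by
    rw [LinearMap.ker_comp, ker_pr]
  rw [b3] at a3
  have b4 : Disjoint (K1.map ((pr E1).comp D2)) (N1 ⊔ LinearMap.range D1) := by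
    rw [Submodule.disjoint_def]
    intro v hv hv'
    obtain ⟨u, hu, rfl⟩ := hv
    have hort : ∀ w ∈ N1 ⊔ LinearMap.range D1, inner ℝ (pr E1 (D2 u)) w = (0 : ℝ) := by
      intro w hw
      obtain ⟨w1, hw1, w2, hw2, rfl⟩ := Submodule.mem_sup.1 hw
      obtain ⟨t, rfl⟩ := hw2
      rw [inner_add_right, inner_pr E1 _ _ hw1.1, inner_pr E1 _ _ (h1 t)]
      have c1 : inner ℝ (D2 u) w1 = (0 : ℝ) := (Submodule.mem_orthogonal E2 w1).1 hw1.2 _ (h2 u)
      have c2 : inner ℝ (D2 u) (D1 t) = (0 : ℝ) := by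
        rw [real_inner_comm, iso t u]
        exact (Submodule.mem_orthogonal' E2 _).1 hu _ (h2 t)
      rw [c1, c2, add_zero]
    have := hort _ hv'
    exact inner_self_eq_zero.1 this
  have b5 : K1.map ((pr E1).comp D2) ⊔ (N1 ⊔ LinearMap.range D1) ≤ E1 := by
    refine sup_le ?_ (sup_le inf_le_left ?_)
    · rintro v ⟨u, _, rfl⟩
      exact pr_mem E1 _
    · rintro v ⟨u, rfl⟩
      exact h1 u
  have b6 := Submodule.finrank_sup_add_finrank_inf_eq (K1.map ((pr E1).comp D2))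
    (N1 ⊔ LinearMap.range D1)
  rw [disjoint_iff.1 b4, finrank_bot] at b6
  have b7 := Submodule.finrank_mono b5
  omega

/-- upper bound for the radical part -/
lemma dim_up (F1 F2 : Submodule ℝ V) (D1 D2 : A →ₗ[ℝ] V) (K : Submodule ℝ A)
    (h1 : ∀ u ∈ K, D1 u ∈ F1) (h2 : ∀ u ∈ K, D2 u ∈ F2)
    (inj : ∀ u ∈ K, D1 u = 0 → D2 u = 0 → u = 0) :
    finrank ℝ K ≤ finrank ℝ F1 + finrank ℝ F2 := by
  have a1 := finrank_restrict K D1
  have b1 : finrank ℝ (K.map D1) ≤ finrank ℝ F1 := by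
    apply Submodule.finrank_mono
    rintro v ⟨u, hu, rfl⟩
    exact h1 u hu
  have a2 := finrank_restrict (K ⊓ LinearMap.ker D1) D2
  have b2 : finrank ℝ ((K ⊓ LinearMap.ker D1).map D2) ≤ finrank ℝ F2 := by
    apply Submodule.finrank_mono
    rintro v ⟨u, hu, rfl⟩
    exact h2 u hu.1
  have b3 : (K ⊓ LinearMap.ker D1) ⊓ LinearMap.ker D2 = ⊥ := by
    rw [eq_bot_iff]
    rintro u ⟨⟨hu, hu1⟩, hu2⟩
    exact inj u hu hu1 hu2
  rw [b3, finrank_bot] at a2
  omega

end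
end Pool.Agent.Lib_helper91.CMC2
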