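import Pool.Agent.Lib_helper91.CMC2.Calc

open scoped Manifold ContDiff Topology

namespace Pool.Agent.Lib_helper91.CMC2

section charts
variable {n : ℕ} {M : Type*} [TopologicalSpace M] [ChartedSpace (E n) M]
  [IsManifold 𝓘(ℝ, E n) ∞ M]

lemma chart_smooth {V : Type*} [NormedAddCommGroup V] [NormedSpace ℝ V] {f : M → V}
    (hf : ContMDiff 𝓘(ℝ, E n) 𝓘(ℝ, V) ∞ f) {e : OpenPartialHomeomorph M (E n)}
    (he : e ∈ atlas (E n) M) {z : E n} (hz : z ∈ e.target) :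
    ContDiffAt ℝ ∞ (f ∘ e.symm) z := by
  have h1 : ContMDiffOn 𝓘(ℝ, E n) 𝓘(ℝ, E n) ∞ e.symm e.target :=
    contMDiffOn_symm_of_mem_maximalAtlas (IsManifold.subset_maximalAtlas he)
  have h2 : ContMDiffOn 𝓘(ℝ, E n) 𝓘(ℝ, V) ∞ (f ∘ e.symm) e.target := hf.comp_contMDiffOn h1
  have h3 := contMDiffOn_iff_contDiffOn.1 h2
  exact h3.contDiffAt (e.open_target.mem_nhds hz)

lemma chart_immersion {V : Type*} [NormedAddCommGroup V] [NormedSpace ℝ V] {f : M → V}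
    (hf : ContMDiff 𝓘(ℝ, E n) 𝓘(ℝ, V) ∞ f)
    (hi : ∀ p, Function.Injective (mfderiv 𝓘(ℝ, E n) 𝓘(ℝ, V) f p))
    {e : OpenPartialHomeomorph M (E n)}
    (he : e ∈ atlas (E n) M) {z : E n} (hz : z ∈ e.target) :
    Function.Injective (fderiv ℝ (f ∘ e.symm) z) := by
  have hm : e.MDifferentiable 𝓘(ℝ, E n) 𝓘(ℝ, E n) := mdifferentiable_of_mem_atlas he
  have h1 : MDifferentiableAt 𝓘(ℝ, E n) 𝓘(ℝ, E n) e.symm z := hm.mdifferentiableAt_symm hz
  have h2 : MDifferentiableAt 𝓘(ℝ, E n) 𝓘(ℝ, V) f (e.symm z) := hf.mdifferentiableAt (by simp)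
  have h3 : mfderiv 𝓘(ℝ, E n) 𝓘(ℝ, V) (f ∘ e.symm) z
      = (mfderiv 𝓘(ℝ, E n) 𝓘(ℝ, V) f (e.symm z)).comp (mfderiv 𝓘(ℝ, E n) 𝓘(ℝ, E n) e.symm z) :=
    mfderiv_comp z h2 h1
  rw [mfderiv_eq_fderiv] at h3
  rw [h3]
  have h4 : Function.Injective (mfderiv 𝓘(ℝ, E n) 𝓘(ℝ, E n) e.symm z) := by
    have h5 := hm.comp_symm_deriv hz
    intro u v huv
    have h6 := congrArg (fun L => L u) h5
    have h7 := congrArg (fun L => L v) h5
    simp only [ContinuousLinearMap.comp_apply] at h6 h7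
    rw [huv] at h6
    exact h6.symm.trans h7
  exact (hi _).comp h4

omit [IsManifold 𝓘(ℝ, E n) ∞ M] in
lemma const_of_fderiv_zero [ConnectedSpace M] {f : M → ℝ}
    (hd : ∀ e ∈ atlas (E n) M, ∀ z ∈ e.target, DifferentiableAt ℝ (f ∘ e.symm) z)
    (h0 : ∀ e ∈ atlas (E n) M, ∀ z ∈ e.target, fderiv ℝ (f ∘ e.symm) z = 0) (p q : M) :
    f p = f q := by
  have hl : IsLocallyConstant f := by
    rw [IsLocallyConstant.iff_eventually_eq]
    intro p
    set e := chartAt (E n) p with he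
    have hea : e ∈ atlas (E n) M := chart_mem_atlas _ p
    have hp : p ∈ e.source := mem_chart_source _ p
    have hep : e p ∈ e.target := e.map_source hp
    obtain ⟨r, hr, hball⟩ := Metric.isOpen_iff.1 e.open_target (e p) hep
    have hconst : ∀ y ∈ Metric.ball (e p) r, (f ∘ e.symm) y = (f ∘ e.symm) (e p) := by
      intro y hy
      refine Metric.isOpen_ball.is_const_of_fderiv_eq_zero (𝕜 := ℝ)
        (convex_ball (e p) r).isPreconnected ?_ ?_ hy (Metric.mem_ball_self hr)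
      · intro w hw
        exact (hd e hea w (hball hw)).differentiableWithinAt
      · intro w hw
        exact h0 e hea w (hball hw)
    have hmem : e ⁻¹' Metric.ball (e p) r ∩ e.source ∈ 𝓝 p := by
      refine Filter.inter_mem ?_ (e.open_source.mem_nhds hp)
      exact (e.continuousAt hp).preimage_mem_nhds (Metric.ball_mem_nhds _ hr)
    filter_upwards [hmem] with y hy
    have h1 := hconst (e y) hy.1
    simp only [Function.comp_apply] at h1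
    rw [e.left_inv hy.2, e.left_inv hp] at h1
    exact h1
  exact hl.apply_eq_of_preconnectedSpace p q

end charts

/-- Local data of a CMC 2-type immersion on an open set of a chart. -/
structure LD {n m : ℕ} (U : Set (E n)) (X X1 X2 : E n → E m) (c : E m) (l1 l2 N0 : ℝ) :
    Prop where
  op : IsOpen U
  s1 : ∀ z ∈ U, ContDiffAt ℝ ∞ X1 z
  s2 : ∀ z ∈ U, ContDiffAt ℝ ∞ X2 z
  dec : ∀ z ∈ U, X z = c + X1 z + X2 z
  imm : ∀ z ∈ U, Function.Injective (fderiv ℝ X z)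
  e1 : ∀ z ∈ U, lap X X1 z = l1 • X1 z
  e2 : ∀ z ∈ U, lap X X2 z = l2 • X2 z
  cmc : ∀ z ∈ U, ‖lap X X z‖ = N0
  ne : l1 ≠ l2
  ne1 : l1 ≠ 0
  ne2 : l2 ≠ 0

lemma exists_LD {n m : ℕ} (hn : n ≠ 0) {M : Type*} [TopologicalSpace M]
    [ChartedSpace (E n) M] [IsManifold 𝓘(ℝ, E n) ∞ M] {x : M → E m} {c : E m} {x1 x2 : M → E m}
    {l1 l2 : ℝ} (h : IsCMCNonNullTwoType (n := n) x c x1 x2 l1 l2) :
    ∃ N0 : ℝ, ∀ e ∈ atlas (E n) M, LD e.target (x ∘ e.symm) (x1 ∘ e.symm) (x2 ∘ e.symm) c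
      l1 l2 N0 := by
  obtain ⟨a, ha⟩ := h.cmc
  refine ⟨n * a, fun e he => ?_⟩
  refine ⟨e.open_target, fun z hz => chart_smooth h.smooth1 he hz,
    fun z hz => chart_smooth h.smooth2 he hz, fun z _ => h.decomp _,
    fun z hz => h.immersion e he z hz, fun z hz => h.eigen1 e he z hz,
    fun z hz => h.eigen2 e he z hz, fun z hz => ?_, h.ne, h.ne1, h.ne2⟩
  rw [lap_self_eq hn, norm_smul, ha e he z hz]
  simp

namespace LD
variable {n m : ℕ} {U : Set (E n)} {X X1 X2 : E n → E m} {c : E m} {l1 l2 N0 : ℝ}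
  {z : E n}

/-- the vector `y = l1 x1 + l2 x2` -/
def yv (l1 l2 : ℝ) (X1 X2 : E n → E m) (z : E n) : E m := l1 • X1 z + l2 • X2 z

lemma evX (h : LD U X X1 X2 c l1 l2 N0) (hz : z ∈ U) :
    X =ᶠ[𝓝 z] fun w => c + X1 w + X2 w := by
  filter_upwards [h.op.mem_nhds hz] with w hw using h.dec w hw

lemma sX (h : LD U X X1 X2 c l1 l2 N0) (hz : z ∈ U) : ContDiffAt ℝ ∞ X z :=
  ((contDiffAt_const.add (h.s1 z hz)).add (h.s2 z hz)).congr_of_eventuallyEq (h.evX hz)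

lemma sm (l : ℝ) {F : E n → E m} (hF : ContDiffAt ℝ ∞ F z) :
    ContDiffAt ℝ ∞ (fun w => l • F w) z := hF.const_smul l

lemma sy (h : LD U X X1 X2 c l1 l2 N0) (hz : z ∈ U) : ContDiffAt ℝ ∞ (yv l1 l2 X1 X2) z :=
  (sm l1 (h.s1 z hz)).add (sm l2 (h.s2 z hz))

lemma pdX (h : LD U X X1 X2 c l1 l2 N0) (hz : z ∈ U) (i : Fin n) :
    pd i X z = pd i X1 z + pd i X2 z := by
  rw [pd_congr (h.evX hz) i,
    pd_add (F := fun w => c + X1 w) ((diff_of (h.s1 z hz)).const_add c) (diff_of (h.s2 z hz)),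
    pd_add (differentiableAt_const c) (diff_of (h.s1 z hz)), pd_const, zero_add]

lemma pdy (h : LD U X X1 X2 c l1 l2 N0) (hz : z ∈ U) (i : Fin n) :
    pd i (yv l1 l2 X1 X2) z = l1 • pd i X1 z + l2 • pd i X2 z := by
  have h1 := diff_of (h.s1 z hz)
  have h2 := diff_of (h.s2 z hz)
  unfold yv
  have h3 : DifferentiableAt ℝ (fun w => l1 • X1 w) z := h1.const_smul l1
  have h4 : DifferentiableAt ℝ (fun w => l2 • X2 w) z := h2.const_smul l2
  rw [pd_add h3 h4, pd_smul l1 h1, pd_smul l2 h2]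

lemma lapX (h : LD U X X1 X2 c l1 l2 N0) (hz : z ∈ U) :
    lap X X z = yv l1 l2 X1 X2 z := by
  rw [lap_congr (h.evX hz)]
  rw [lap_add (F := fun w => c + X1 w) (contDiffAt_const.add (h.s1 z hz)) (h.s2 z hz),
    lap_add contDiffAt_const (h.s1 z hz), lap_const, zero_add, h.e1 z hz, h.e2 z hz]
  rfl

lemma lapy (h : LD U X X1 X2 c l1 l2 N0) (hz : z ∈ U) :
    lap X (yv l1 l2 X1 X2) z = (l1 * l1) • X1 z + (l2 * l2) • X2 z := by
  unfold yv
  rw [lap_add (sm l1 (h.s1 z hz)) (sm l2 (h.s2 z hz)),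
    lap_smul l1 (h.s1 z hz), lap_smul l2 (h.s2 z hz), h.e1 z hz, h.e2 z hz, smul_smul, smul_smul]

lemma normy (h : LD U X X1 X2 c l1 l2 N0) (hz : z ∈ U) :
    inner ℝ (yv l1 l2 X1 X2 z) (yv l1 l2 X1 X2 z) = N0 ^ 2 := by
  rw [real_inner_self_eq_norm_sq, ← h.lapX hz, h.cmc z hz]

lemma inner_y_X (h : LD U X X1 X2 c l1 l2 N0) (hz : z ∈ U) (i : Fin n) :
    inner ℝ (yv l1 l2 X1 X2 z) (pd i X z) = 0 := by
  rw [← h.lapX hz]; exact inner_lap_self (h.sX hz) (h.imm z hz) i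

lemma inner_y_y (h : LD U X X1 X2 c l1 l2 N0) (hz : z ∈ U) (i : Fin n) :
    inner ℝ (yv l1 l2 X1 X2 z) (pd i (yv l1 l2 X1 X2) z) = 0 := by
  have h1 : (fun w => inner ℝ (yv l1 l2 X1 X2 w) (yv l1 l2 X1 X2 w)) =ᶠ[𝓝 z]
      fun _ => N0 ^ 2 := by
    filter_upwards [h.op.mem_nhds hz] with w hw using h.normy hw
  have h2 := pd_congr h1 i
  rw [pd_const, pd_inner (diff_of (h.sy hz)) (diff_of (h.sy hz)), real_inner_comm] at h2
  rw [real_inner_comm]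
  linarith

/-- `⟨d x1, y⟩ = 0` -/
lemma inner_y_1 (h : LD U X X1 X2 c l1 l2 N0) (hz : z ∈ U) (i : Fin n) :
    inner ℝ (yv l1 l2 X1 X2 z) (pd i X1 z) = 0 := by
  have h1 := h.inner_y_X hz i
  have h2 := h.inner_y_y hz i
  rw [h.pdX hz, inner_add_right] at h1
  rw [h.pdy hz, inner_add_right, real_inner_smul_right, real_inner_smul_right] at h2
  have h3 : (l2 - l1) * inner ℝ (yv l1 l2 X1 X2 z) (pd i X1 z) = 0 := by
    linear_combination l2 * h1 - h2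
  rcases mul_eq_zero.1 h3 with h4 | h4
  · exact absurd (sub_eq_zero.1 h4).symm h.ne
  · exact h4

/-- `⟨d x2, y⟩ = 0` -/
lemma inner_y_2 (h : LD U X X1 X2 c l1 l2 N0) (hz : z ∈ U) (i : Fin n) :
    inner ℝ (yv l1 l2 X1 X2 z) (pd i X2 z) = 0 := by
  have h1 := h.inner_y_X hz i
  have h2 := h.inner_y_1 hz i
  rw [h.pdX hz, inner_add_right, h2, zero_add] at h1
  exact h1

/-- isotropy: `⟨∂_i x1, ∂_j x2⟩` is symmetric -/
lemma isotropy (h : LD U X X1 X2 c l1 l2 N0) (hz : z ∈ U) (i j : Fin n) :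
    inner ℝ (pd i X1 z) (pd j X2 z) = inner ℝ (pd j X1 z) (pd i X2 z) := by
  have key : ∀ i j, inner ℝ (yv l1 l2 X1 X2 z) (pd i (pd j X2) z)
      + l1 * inner ℝ (pd i X1 z) (pd j X2 z) + l2 * inner ℝ (pd i X2 z) (pd j X2 z) = 0 := by
    intro i j
    have h1 : (fun w => inner ℝ (yv l1 l2 X1 X2 w) (pd j X2 w)) =ᶠ[𝓝 z] fun _ => (0 : ℝ) := by
      filter_upwards [h.op.mem_nhds hz] with w hw using h.inner_y_2 hw j
    have h2 := pd_congr h1 i
    rw [pd_const, pd_inner (diff_of (h.sy hz)) (diff_of (pd_smooth (h.s2 z hz) j)), h.pdy hz,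
      inner_add_left, real_inner_smul_left, real_inner_smul_left] at h2
    linarith
  have k1 := key i j
  have k2 := key j i
  rw [pd_comm (h.s2 z hz) j i, real_inner_comm (pd i X2 z) (pd j X2 z)] at k2
  have h3 : l1 * (inner ℝ (pd i X1 z) (pd j X2 z) - inner ℝ (pd j X1 z) (pd i X2 z)) = 0 := by
    linear_combination k1 - k2
  rcases mul_eq_zero.1 h3 with h4 | h4
  · exact absurd h4 h.ne1
  · linarith

lemma mono (h : LD U X X1 X2 c l1 l2 N0) {V : Set (E n)} (hV : IsOpen V) (hVU : V ⊆ U) :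
    LD V X X1 X2 c l1 l2 N0 :=
  ⟨hV, fun z hz => h.s1 z (hVU hz), fun z hz => h.s2 z (hVU hz), fun z hz => h.dec z (hVU hz),
    fun z hz => h.imm z (hVU hz), fun z hz => h.e1 z (hVU hz), fun z hz => h.e2 z (hVU hz),
    fun z hz => h.cmc z (hVU hz), h.ne, h.ne1, h.ne2⟩

lemma symm (h : LD U X X1 X2 c l1 l2 N0) : LD U X X2 X1 c l2 l1 N0 :=
  ⟨h.op, h.s2, h.s1, fun z hz => by rw [h.dec z hz]; abel, h.imm, h.e2, h.e1, h.cmc,
    h.ne.symm, h.ne2, h.ne1⟩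

end LD

end Pool.Agent.Lib_helper91.CMC2
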