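import Pool.Agent.Lib_helper91.CMC2.Sub

open scoped ContDiff Topology
open Module

namespace Pool.Agent.Lib_helper91.CMC2

namespace LD
variable {n m : ℕ} {U : Set (E n)} {X X1 X2 : E n → E m} {c : E m} {l1 l2 N0 : ℝ}
  {z : E n}

lemma fderivX (h : LD U X X1 X2 c l1 l2 N0) (hz : z ∈ U) (v : E n) :
    fderiv ℝ X z v = fderiv ℝ X1 z v + fderiv ℝ X2 z v := by
  rw [fderiv_eq_sum, fderiv_eq_sum, fderiv_eq_sum, ← Finset.sum_add_distrib]
  refine Finset.sum_congr rfl fun i _ => ?_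
  rw [h.pdX hz, smul_add]

lemma iso_vec (h : LD U X X1 X2 c l1 l2 N0) (hz : z ∈ U) (u v : E n) :
    inner ℝ (fderiv ℝ X1 z u) (fderiv ℝ X2 z v) = inner ℝ (fderiv ℝ X1 z v) (fderiv ℝ X2 z u) := by
  rw [fderiv_eq_sum X1 z u, fderiv_eq_sum X2 z v, fderiv_eq_sum X1 z v, fderiv_eq_sum X2 z u]
  simp only [sum_inner, inner_sum, real_inner_smul_left, real_inner_smul_right]
  rw [Finset.sum_comm]
  refine Finset.sum_congr rfl fun i _ => Finset.sum_congr rfl fun j _ => ?_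
  rw [h.isotropy hz j i]; ring

lemma inner_y_D1 (h : LD U X X1 X2 c l1 l2 N0) (hz : z ∈ U) (u : E n) :
    inner ℝ (yv l1 l2 X1 X2 z) (fderiv ℝ X1 z u) = 0 := by
  rw [fderiv_eq_sum, inner_sum]
  exact Finset.sum_eq_zero fun i _ => by rw [real_inner_smul_right, h.inner_y_1 hz, mul_zero]

lemma inner_y_D2 (h : LD U X X1 X2 c l1 l2 N0) (hz : z ∈ U) (u : E n) :
    inner ℝ (yv l1 l2 X1 X2 z) (fderiv ℝ X2 z u) = 0 := by
  rw [fderiv_eq_sum, inner_sum]
  exact Finset.sum_eq_zero fun i _ => by rw [real_inner_smul_right, h.inner_y_2 hz, mul_zero]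

/-- if all second derivatives are tangent, then the mean curvature vanishes -/
lemma lap_zero_of_tangent (h : LD U X X1 X2 c l1 l2 N0) (hz : z ∈ U)
    (ht : ∀ i j, ∃ v : E n, pd i (pd j X) z = fderiv ℝ X z v) : lap X X z = 0 := by
  unfold lap
  rw [neg_eq_zero]
  refine Finset.sum_eq_zero fun i _ => Finset.sum_eq_zero fun j _ => ?_
  set s := pd i (pd j X) z - ∑ k, christoffel X z i j k • pd k X z with hs
  have h1 : ∀ l, inner ℝ s (pd l X z) = (0 : ℝ) := fun l => inner_sff (h.sX hz) (h.imm z hz) i j l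
  obtain ⟨v, hv⟩ := ht i j
  have h2 : inner ℝ s s = (0 : ℝ) := by
    nth_rewrite 2 [hs]
    rw [hv, fderiv_eq_sum, inner_sub_right, inner_sum, inner_sum]
    simp [real_inner_smul_right, h1]
  rw [inner_self_eq_zero.1 h2, smul_zero]

/-- dimension estimates for `n = 2`, both components planar -/
lemma rank_le_one (h : LD U X X1 X2 c l1 l2 N0) (hz : z ∈ U) (K : Submodule ℝ (E m))
    (hK : ∀ w ∈ U, X2 w ∈ K) (hK2 : finrank ℝ K = 2) :
    finrank ℝ (LinearMap.range (fderiv ℝ X2 z : E n →ₗ[ℝ] E m)) ≤ 1 := by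
  by_contra hcon
  push Not at hcon
  have hle : LinearMap.range (fderiv ℝ X2 z : E n →ₗ[ℝ] E m) ≤ K := by
    rintro v ⟨u, rfl⟩
    refine fderiv_mem ?_ (diff_of (h.s2 z hz)) u
    filter_upwards [h.op.mem_nhds hz] with w hw using hK w hw
  have heq : LinearMap.range (fderiv ℝ X2 z : E n →ₗ[ℝ] E m) = K :=
    Submodule.eq_of_le_of_finrank_le hle (by omega)
  have hbot := h.submersion hz K hK (by
    intro u hu hi
    rw [← heq] at hu
    obtain ⟨v, hv⟩ := hu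
    have : inner ℝ u u = (0 : ℝ) := by
      nth_rewrite 1 [← hv]
      have h3 : (fderiv ℝ X2 z : E n →ₗ[ℝ] E m) v = fderiv ℝ X2 z v := rfl
      rw [h3, fderiv_eq_sum, sum_inner]
      exact Finset.sum_eq_zero fun i _ => by rw [real_inner_smul_left, hi i, mul_zero]
    exact inner_self_eq_zero.1 this)
  rw [hbot, finrank_bot] at hK2
  omega

/-- The exceptional case `n = 2`, both components planar, nondegenerate pairing. -/
lemma planar2 {X X1 X2 : E n → E m} (h : LD U X X1 X2 c l1 l2 N0) (hn : n = 2) (hz : z ∈ U)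
    (K1 K2 : Submodule ℝ (E m)) (hK1 : ∀ w ∈ U, X1 w ∈ K1) (hK2 : ∀ w ∈ U, X2 w ∈ K2)
    (hf1 : finrank ℝ K1 = 2) (hf2 : finrank ℝ K2 = 2)
    (hN1 : K1 ⊓ K2ᗮ = ⊥) (hN2 : K2 ⊓ K1ᗮ = ⊥) : N0 = 0 := by
  -- ranks and kernels
  have mem1 : ∀ w ∈ U, ∀ v, fderiv ℝ X1 w v ∈ K1 := fun w hw v =>
    fderiv_mem (by filter_upwards [h.op.mem_nhds hw] with t ht using hK1 t ht)
      (diff_of (h.s1 w hw)) v
  have mem2 : ∀ w ∈ U, ∀ v, fderiv ℝ X2 w v ∈ K2 := fun w hw v =>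
    fderiv_mem (by filter_upwards [h.op.mem_nhds hw] with t ht using hK2 t ht)
      (diff_of (h.s2 w hw)) v
  have r1 : ∀ w ∈ U, finrank ℝ (LinearMap.range (fderiv ℝ X1 w : E n →ₗ[ℝ] E m)) ≤ 1 :=
    fun w hw => h.symm.rank_le_one hw K1 hK1 hf1
  have r2 : ∀ w ∈ U, finrank ℝ (LinearMap.range (fderiv ℝ X2 w : E n →ₗ[ℝ] E m)) ≤ 1 :=
    fun w hw => h.rank_le_one hw K2 hK2 hf2
  have hfn : finrank ℝ (E n) = 2 := by rw [finrank_euclideanSpace, Fintype.card_fin, hn]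
  -- decomposition of the tangent space
  have hker : ∀ w ∈ U, LinearMap.ker (fderiv ℝ X1 w : E n →ₗ[ℝ] E m)
      ⊓ LinearMap.ker (fderiv ℝ X2 w : E n →ₗ[ℝ] E m) = ⊥ := by
    intro w hw
    rw [eq_bot_iff]
    rintro u ⟨hu1, hu2⟩
    have hu1' : fderiv ℝ X1 w u = 0 := hu1
    have hu2' : fderiv ℝ X2 w u = 0 := hu2
    have : fderiv ℝ X w u = 0 := by rw [h.fderivX hw, hu1', hu2', add_zero]
    exact h.imm w hw (by rw [this, map_zero])
  have hdec : ∀ w ∈ U, LinearMap.ker (fderiv ℝ X1 w : E n →ₗ[ℝ] E m)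
      ⊔ LinearMap.ker (fderiv ℝ X2 w : E n →ₗ[ℝ] E m) = ⊤ := by
    intro w hw
    have a1 := (fderiv ℝ X1 w : E n →ₗ[ℝ] E m).finrank_range_add_finrank_ker
    have a2 := (fderiv ℝ X2 w : E n →ₗ[ℝ] E m).finrank_range_add_finrank_ker
    have a3 := Submodule.finrank_sup_add_finrank_inf_eq
      (LinearMap.ker (fderiv ℝ X1 w : E n →ₗ[ℝ] E m))
      (LinearMap.ker (fderiv ℝ X2 w : E n →ₗ[ℝ] E m))
    rw [hker w hw, finrank_bot] at a3
    have a4 := r1 w hw
    have a5 := r2 w hw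
    rw [hfn] at a1 a2
    refine Submodule.eq_top_of_finrank_eq ?_
    have a6 := Submodule.finrank_le (LinearMap.ker (fderiv ℝ X1 w : E n →ₗ[ℝ] E m)
      ⊔ LinearMap.ker (fderiv ℝ X2 w : E n →ₗ[ℝ] E m))
    rw [hfn] at a6 ⊢
    omega
  have split : ∀ w ∈ U, ∀ u : E n, ∃ a b : E n, fderiv ℝ X1 w a = 0 ∧ fderiv ℝ X2 w b = 0 ∧
      u = a + b := by
    intro w hw u
    have hu : u ∈ LinearMap.ker (fderiv ℝ X1 w : E n →ₗ[ℝ] E m)
      ⊔ LinearMap.ker (fderiv ℝ X2 w : E n →ₗ[ℝ] E m) := by rw [hdec w hw]; trivial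
    obtain ⟨a, ha, b, hb, hab⟩ := Submodule.mem_sup.1 hu
    exact ⟨a, b, ha, hb, hab.symm⟩
  -- the two differentials have orthogonal images
  have ort : ∀ w ∈ U, ∀ u v : E n, inner ℝ (fderiv ℝ X1 w u) (fderiv ℝ X2 w v) = (0 : ℝ) := by
    intro w hw u v
    obtain ⟨a, b, ha, hb, rfl⟩ := split w hw u
    obtain ⟨a', b', ha', hb', rfl⟩ := split w hw v
    rw [map_add, ha, zero_add, map_add, hb', add_zero, h.iso_vec hw b a', ha', inner_zero_left]
  -- third order tensor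
  have C1 : ∀ k i j, inner ℝ (pd k (pd i X1) z) (pd j X2 z)
      = -(inner ℝ (pd i X1 z) (pd k (pd j X2) z) : ℝ) := by
    intro k i j
    have e0 : (fun w => inner ℝ (pd i X1 w) (pd j X2 w)) =ᶠ[𝓝 z] fun _ => (0 : ℝ) := by
      filter_upwards [h.op.mem_nhds hz] with w hw using ort w hw _ _
    have e1 := pd_congr e0 k
    rw [pd_const, pd_inner (diff_of (pd_smooth (h.s1 z hz) i))
      (diff_of (pd_smooth (h.s2 z hz) j))] at e1
    linarith
  have Csym : ∀ k i j, inner ℝ (pd k (pd i X1) z) (pd j X2 z)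
      = (inner ℝ (pd k (pd j X1) z) (pd i X2 z) : ℝ) := by
    intro k i j
    have s1 : ∀ a b d, inner ℝ (pd a (pd b X1) z) (pd d X2 z)
        = (inner ℝ (pd b (pd a X1) z) (pd d X2 z) : ℝ) := fun a b d => by
      rw [pd_comm (h.s1 z hz) a b]
    have s2 : ∀ a b d, inner ℝ (pd a (pd b X1) z) (pd d X2 z)
        = (inner ℝ (pd d (pd b X1) z) (pd a X2 z) : ℝ) := fun a b d => by
      rw [C1, C1, pd_comm (h.s2 z hz) a d]
    rw [s1 k i j, s2 i k j, s1 j k i]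
  have Czero : ∀ k (v w : E n), inner ℝ (∑ i, v i • pd k (pd i X1) z) (fderiv ℝ X2 z w)
      = (0 : ℝ) := by
    intro k v w
    have f1 : ∀ v w : E n, inner ℝ (∑ i, v i • pd k (pd i X1) z) (fderiv ℝ X2 z w)
        = (∑ i, ∑ j, v i * w j * inner ℝ (pd k (pd i X1) z) (pd j X2 z) : ℝ) := by
      intro v w
      rw [fderiv_eq_sum, sum_inner]
      refine Finset.sum_congr rfl fun i _ => ?_
      rw [inner_sum]
      refine Finset.sum_congr rfl fun j _ => ?_
      rw [real_inner_smul_left, real_inner_smul_right]; ring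
    have f2 : ∀ v w : E n, inner ℝ (∑ i, v i • pd k (pd i X1) z) (fderiv ℝ X2 z w)
        = (inner ℝ (∑ i, w i • pd k (pd i X1) z) (fderiv ℝ X2 z v) : ℝ) := by
      intro v w
      rw [f1, f1, Finset.sum_comm]
      refine Finset.sum_congr rfl fun i _ => Finset.sum_congr rfl fun j _ => ?_
      rw [Csym k j i]; ring
    have f3 : ∀ v w : E n, inner ℝ (∑ i, v i • pd k (pd i X1) z) (fderiv ℝ X2 z w)
        = -(inner ℝ (fderiv ℝ X1 z v) (∑ j, w j • pd k (pd j X2) z) : ℝ) := by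
      intro v w
      rw [f1, fderiv_eq_sum, sum_inner, ← Finset.sum_neg_distrib]
      refine Finset.sum_congr rfl fun i _ => ?_
      rw [inner_sum, ← Finset.sum_neg_distrib]
      refine Finset.sum_congr rfl fun j _ => ?_
      rw [real_inner_smul_left, real_inner_smul_right, C1]; ring
    obtain ⟨a, b, ha, hb, rfl⟩ := split z hz w
    rw [map_add, hb, add_zero, f2, f3, ha, inner_zero_left, neg_zero]
  have C0 : ∀ k i (w : E n), inner ℝ (pd k (pd i X1) z) (fderiv ℝ X2 z w) = (0 : ℝ) := by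
    intro k i w
    have := Czero k (EuclideanSpace.single i (1 : ℝ)) w
    simpa using this
  have C0' : ∀ k i (w : E n), inner ℝ (pd k (pd i X2) z) (fderiv ℝ X1 z w) = (0 : ℝ) := by
    intro k i w
    rw [fderiv_eq_sum, inner_sum]
    refine Finset.sum_eq_zero fun j _ => ?_
    have h1 := C1 k j i
    have h2 : inner ℝ (pd k (pd j X1) z) (pd i X2 z) = (0 : ℝ) := C0 k j _
    rw [h2] at h1
    rw [real_inner_smul_right, real_inner_comm]
    have h3 : inner ℝ (pd j X1 z) (pd k (pd i X2) z) = (0 : ℝ) := by linarith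
    rw [h3, mul_zero]
  -- second derivatives lie in the ranges
  have rng : ∀ (Y Y' : E n → E m) (L L' : Submodule ℝ (E m)), (∀ v, fderiv ℝ Y z v ∈ L) →
      (∀ v, fderiv ℝ Y' z v ∈ L') → finrank ℝ L = 2 → L' ⊓ Lᗮ = ⊥ →
      (∀ u v, inner ℝ (fderiv ℝ Y z u) (fderiv ℝ Y' z v) = (0 : ℝ)) →
      finrank ℝ (LinearMap.range (fderiv ℝ Y z : E n →ₗ[ℝ] E m)) = 1 →
      finrank ℝ (LinearMap.range (fderiv ℝ Y' z : E n →ₗ[ℝ] E m)) = 1 →
      ∀ s ∈ L, (∀ v, inner ℝ s (fderiv ℝ Y' z v) = (0 : ℝ)) → ∃ v, s = fderiv ℝ Y z v := by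
    intro Y Y' L L' hY hY' hL hLL ho hr hr' s hs hso
    have hne : LinearMap.range (fderiv ℝ Y' z : E n →ₗ[ℝ] E m) ≠ ⊥ := by
      intro h0; rw [h0, finrank_bot] at hr'; omega
    obtain ⟨b, hb, hb0⟩ := Submodule.exists_mem_ne_zero_of_ne_bot hne
    obtain ⟨t, ht⟩ := hb
    have ht' : fderiv ℝ Y' z t = b := ht
    set F : Submodule ℝ (E m) := L ⊓ LinearMap.ker (pairL b : E m →ₗ[ℝ] ℝ) with hF
    have hFL : F < L := by
      refine lt_of_le_of_ne inf_le_left ?_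
      intro heq
      have : b ∈ Lᗮ := by
        rw [Submodule.mem_orthogonal']
        intro u hu
        rw [← heq] at hu
        exact hu.2
      have hb' : b ∈ L' ⊓ Lᗮ := ⟨by rw [← ht']; exact hY' t, this⟩
      rw [hLL] at hb'
      exact hb0 hb'
    have hFr := Submodule.finrank_lt_finrank_of_lt hFL
    have hle : LinearMap.range (fderiv ℝ Y z : E n →ₗ[ℝ] E m) ≤ F := by
      rintro v ⟨u, rfl⟩
      refine ⟨hY u, ?_⟩
      show inner ℝ b (fderiv ℝ Y z u) = (0 : ℝ)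
      rw [real_inner_comm, ← ht']
      exact ho u t
    have heq := Submodule.eq_of_le_of_finrank_le hle (by omega)
    have hsF : s ∈ F := by
      refine ⟨hs, ?_⟩
      show inner ℝ b s = (0 : ℝ)
      rw [real_inner_comm, ← ht']; exact hso t
    rw [← heq] at hsF
    obtain ⟨v, hv⟩ := hsF
    exact ⟨v, hv.symm⟩
  have rk1 : finrank ℝ (LinearMap.range (fderiv ℝ X1 z : E n →ₗ[ℝ] E m)) = 1 ∧
      finrank ℝ (LinearMap.range (fderiv ℝ X2 z : E n →ₗ[ℝ] E m)) = 1 := by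
    have a1 := (fderiv ℝ X1 z : E n →ₗ[ℝ] E m).finrank_range_add_finrank_ker
    have a2 := (fderiv ℝ X2 z : E n →ₗ[ℝ] E m).finrank_range_add_finrank_ker
    have a3 := Submodule.finrank_sup_add_finrank_inf_eq
      (LinearMap.ker (fderiv ℝ X1 z : E n →ₗ[ℝ] E m))
      (LinearMap.ker (fderiv ℝ X2 z : E n →ₗ[ℝ] E m))
    rw [hker z hz, finrank_bot, hdec z hz, finrank_top] at a3
    have a4 := r1 z hz
    have a5 := r2 z hz
    rw [hfn] at a1 a2 a3
    constructor <;> omega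
  have sec1 : ∀ i j, ∃ v, pd i (pd j X1) z = fderiv ℝ X1 z v := by
    intro i j
    refine rng X1 X2 K1 K2 (mem1 z hz) (mem2 z hz) hf1 hN2 (ort z hz) rk1.1 rk1.2 _ ?_ (C0 i j)
    refine pd_mem ?_ (diff_of (pd_smooth (h.s1 z hz) j)) i
    filter_upwards [h.op.mem_nhds hz] with w hw using mem1 w hw _
  have sec2 : ∀ i j, ∃ v, pd i (pd j X2) z = fderiv ℝ X2 z v := by
    intro i j
    refine rng X2 X1 K2 K1 (mem2 z hz) (mem1 z hz) hf2 hN1
      (fun u v => by rw [real_inner_comm]; exact ort z hz v u) rk1.2 rk1.1 _ ?_ (C0' i j)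
    refine pd_mem ?_ (diff_of (pd_smooth (h.s2 z hz) j)) i
    filter_upwards [h.op.mem_nhds hz] with w hw using mem2 w hw _
  have hlap := h.lap_zero_of_tangent hz (by
    intro i j
    obtain ⟨v1, hv1⟩ := sec1 i j
    obtain ⟨v2, hv2⟩ := sec2 i j
    obtain ⟨a, b, ha, hb, hab⟩ := split z hz v1
    obtain ⟨a', b', ha', hb', hab'⟩ := split z hz v2
    refine ⟨b + a', ?_⟩
    have e1 : pd j X =ᶠ[𝓝 z] fun w => pd j X1 w + pd j X2 w := by
      filter_upwards [h.op.mem_nhds hz] with w hw using h.pdX hw j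
    rw [pd_congr e1 i, pd_add (diff_of (pd_smooth (h.s1 z hz) j))
      (diff_of (pd_smooth (h.s2 z hz) j)), hv1, hv2, hab, hab', map_add, ha, zero_add, map_add,
      hb', add_zero, map_add, h.fderivX hz, h.fderivX hz, hb, ha', add_zero, zero_add])
  have := h.cmc z hz
  rw [hlap, norm_zero] at this
  exact this.symm

end LD
end Pool.Agent.Lib_helper91.CMC2
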