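import Pool.Agent.Lib_helper91.CMC2.Local
import Pool.Agent.Lib_helper91.CMC2.LinAlg

open scoped ContDiff Topology
open Module

namespace Pool.Agent.Lib_helper91.CMC2

section
variable {n m : ℕ} {z : E n}

/-- pairing with a fixed vector as a continuous linear map -/
noncomputable def pairL (b : E m) : E m →L[ℝ] ℝ := innerSL ℝ b

lemma pairL_apply (b v : E m) : pairL b v = inner ℝ b v := rfl

lemma pd_mem {F : E n → E m} {K : Submodule ℝ (E m)} (h : ∀ᶠ w in 𝓝 z, F w ∈ K)
    (hd : DifferentiableAt ℝ F z) (i : Fin n) : pd i F z ∈ K := by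
  rw [← Submodule.orthogonal_orthogonal K, Submodule.mem_orthogonal]
  intro b hb
  have h1 : (fun w => pairL b (F w)) =ᶠ[𝓝 z] fun _ => (0 : ℝ) := by
    filter_upwards [h] with w hw
    rw [pairL_apply]
    exact (Submodule.mem_orthogonal' K b).1 hb _ hw
  have h2 := pd_congr h1 i
  rw [pd_const, pd_clm (pairL b) hd, pairL_apply] at h2
  exact h2

lemma fderiv_mem {F : E n → E m} {K : Submodule ℝ (E m)} (h : ∀ᶠ w in 𝓝 z, F w ∈ K)
    (hd : DifferentiableAt ℝ F z) (v : E n) : fderiv ℝ F z v ∈ K := by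
  rw [fderiv_eq_sum]
  exact Submodule.sum_mem _ fun i _ => Submodule.smul_mem _ _ (pd_mem h hd i)

end

namespace LD
variable {n m : ℕ} {U : Set (E n)} {X X1 X2 : E n → E m} {c : E m} {l1 l2 N0 : ℝ}
  {z : E n}

/-- If `b` is orthogonal to `y` near `z` then `b` is orthogonal to `x2` near `z`. -/
lemma orth_of_orth_y (h : LD U X X1 X2 c l1 l2 N0) (hz : z ∈ U) (b : E m)
    (hb : ∀ᶠ w in 𝓝 z, inner ℝ b (yv l1 l2 X1 X2 w) = 0) :
    inner ℝ b (X2 z) = 0 := by
  have h1 : (fun w => pairL b (yv l1 l2 X1 X2 w)) =ᶠ[𝓝 z] fun _ => (0 : ℝ) := by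
    filter_upwards [hb] with w hw using hw
  have h2 := lap_congr (X := X) h1
  rw [lap_const, lap_clm (pairL b) (h.sy hz), h.lapy hz, pairL_apply, inner_add_right,
    real_inner_smul_right, real_inner_smul_right] at h2
  have h3 := hb.self_of_nhds
  unfold yv at h3
  rw [inner_add_right, real_inner_smul_right, real_inner_smul_right] at h3
  have h4 : l2 * (l2 - l1) * inner ℝ b (X2 z) = 0 := by linear_combination h2 - l1 * h3
  rcases mul_eq_zero.1 h4 with h5 | h5
  · rcases mul_eq_zero.1 h5 with h6 | h6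
    · exact absurd h6 h.ne2
    · exact absurd (sub_eq_zero.1 h6).symm h.ne
  · exact h5

/-- `x2` cannot be a submersion onto a subspace. -/
lemma submersion (h : LD U X X1 X2 c l1 l2 N0) (hz : z ∈ U) (K : Submodule ℝ (E m))
    (hK : ∀ w ∈ U, X2 w ∈ K)
    (hs : ∀ u ∈ K, (∀ i, inner ℝ (pd i X2 z) u = 0) → u = 0) : K = ⊥ := by
  -- nondegeneracy persists near `z`
  have hpers : ∀ᶠ w in 𝓝 z, ∀ u ∈ Metric.sphere (0 : E m) 1 ∩ K,
      ∑ i, (inner ℝ (pd i X2 w) u) ^ 2 ≠ (0 : ℝ) := by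
    have hcomp : IsCompact (Metric.sphere (0 : E m) 1 ∩ K) :=
      (isCompact_sphere (0 : E m) 1).inter_right K.closed_of_finiteDimensional
    refine hcomp.eventually_forall_of_forall_eventually ?_
    intro u hu
    have hcont : ContinuousAt (fun q : E n × E m => ∑ i, (inner ℝ (pd i X2 q.1) q.2) ^ 2)
        (z, u) := by
      refine tendsto_finsetSum _ fun i _ => ?_
      have h1 : ContinuousAt (fun q : E n × E m => pd i X2 q.1) (z, u) :=
        ContinuousAt.comp (x := (z, u)) (g := pd i X2) (f := Prod.fst)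
          (pd_smooth (h.s2 z hz) i).continuousAt continuousAt_fst
      have h2 : ContinuousAt (fun q : E n × E m => inner ℝ (pd i X2 q.1) q.2) (z, u) :=
        h1.inner (𝕜 := ℝ) continuousAt_snd
      exact h2.pow 2
    refine hcont.eventually_ne ?_
    intro h0
    have h1 : ∀ i, inner ℝ (pd i X2 z) u = (0 : ℝ) := by
      intro i
      have := (Finset.sum_eq_zero_iff_of_nonneg (fun i _ => sq_nonneg _)).1 h0 i
        (Finset.mem_univ i)
      exact pow_eq_zero_iff (two_ne_zero) |>.1 this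
    have h2 := hs u hu.2 h1
    have h3 : ‖u‖ = 1 := by simpa using hu.1
    rw [h2, norm_zero] at h3
    exact zero_ne_one h3
  have hort : ∀ᶠ w in 𝓝 z, ∀ b ∈ K, inner ℝ b (yv l1 l2 X1 X2 w) = 0 := by
    filter_upwards [hpers, h.op.mem_nhds hz] with w hw hwU b hb
    set p := pr K (yv l1 l2 X1 X2 w) with hp
    by_cases hp0 : p = 0
    · rw [real_inner_comm, ← inner_pr K _ b hb, ← hp, hp0, inner_zero_left]
    · exfalso
      have hpn : ‖p‖ ≠ 0 := norm_ne_zero_iff.2 hp0
      refine hw (‖p‖⁻¹ • p) ⟨?_, K.smul_mem _ (pr_mem K _)⟩ ?_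
      · rw [mem_sphere_zero_iff_norm, norm_smul, norm_inv, norm_norm, inv_mul_cancel₀ hpn]
      · refine Finset.sum_eq_zero fun i _ => ?_
        have hmem : pd i X2 w ∈ K := by
          refine pd_mem ?_ (diff_of (h.s2 w hwU)) i
          filter_upwards [h.op.mem_nhds hwU] with v hv using hK v hv
        rw [real_inner_smul_right, real_inner_comm, inner_pr K _ _ hmem, h.inner_y_2 hwU i]
        simp
  have hX2 : ∀ᶠ w in 𝓝 z, X2 w = 0 := by
    filter_upwards [hort.eventually_nhds, h.op.mem_nhds hz] with w hw hwU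
    have h1 : ∀ b ∈ K, inner ℝ b (X2 w) = (0 : ℝ) := by
      intro b hb
      refine h.orth_of_orth_y hwU b ?_
      filter_upwards [hw] with v hv using hv b hb
    exact inner_self_eq_zero.1 (h1 _ (hK w hwU))
  rw [eq_bot_iff]
  intro u hu
  rw [Submodule.mem_bot]
  refine hs u hu fun i => ?_
  have h1 : X2 =ᶠ[𝓝 z] fun _ => (0 : E m) := hX2
  rw [pd_congr h1 i, pd_const, inner_zero_left]

end LD
end Pool.Agent.Lib_helper91.CMC2
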